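import Mathlib
import Pool.Agent.W25.IT.Basic

/-!
# Iterates of `x ↦ a + d x` for almost all `a`: definitions and elementary lemmas
-/

set_option autoImplicit false

namespace Pool.Agent.Y863.AA

open Finset Filter Pool.Agent.W25.IT

/-- `1 + d + ... + d ^ (j - 1)` -/
def gs (d : ℤ) (j : ℕ) : ℤ := ∑ i ∈ range j, d ^ i

theorem itc_eq (a d : ℤ) (j : ℕ) : itc a d j = a * gs d j := rfl

theorem gs_nat (d j : ℕ) : gs d j = ((∑ i ∈ range j, d ^ i : ℕ) : ℤ) := by
  unfold gs; push_cast; rfl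

theorem gs_pos {d : ℕ} (hd : 1 ≤ d) {j : ℕ} (hj : 1 ≤ j) : 0 < gs d j := by
  rw [gs_nat]
  have : 0 < ∑ i ∈ range j, d ^ i :=
    sum_pos (fun i _ => by positivity) ⟨0, mem_range.2 (by omega)⟩
  exact_mod_cast this

theorem gs_mono {d : ℕ} {i j : ℕ} (h : i ≤ j) : gs d i ≤ gs d j := by
  rw [gs_nat, gs_nat]
  have : ∑ i ∈ range i, d ^ i ≤ ∑ i ∈ range j, d ^ i :=
    sum_le_sum_of_subset (range_mono h)
  exact_mod_cast this

theorem gs_nonneg (d j : ℕ) : 0 ≤ gs d j := by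
  rw [gs_nat]; positivity

/-- the product of the `gs d j`, `1 ≤ j ≤ m` -/
def pr (d m : ℕ) : ℕ := ∏ j ∈ range m, ∑ i ∈ range (j + 1), d ^ i

theorem pr_pos {d : ℕ} (hd : 1 ≤ d) (m : ℕ) : 0 < pr d m := by
  unfold pr
  refine prod_pos fun j _ => sum_pos (fun i _ => by positivity) ⟨0, mem_range.2 (by omega)⟩

theorem pr_dvd (d m : ℕ) {j : ℕ} (h1 : 1 ≤ j) (h2 : j ≤ m) : gs d j ∣ (pr d m : ℤ) := by
  rw [gs_nat]
  have : (∑ i ∈ range j, d ^ i) ∣ pr d m := by
    unfold pr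
    obtain ⟨i, rfl⟩ : ∃ i, j = i + 1 := ⟨j - 1, by omega⟩
    exact dvd_prod_of_mem (fun j => ∑ i ∈ range (j + 1), d ^ i) (mem_range.2 (by omega))
  exact_mod_cast this

theorem pr_le {d : ℕ} (hd : 1 ≤ d) (m : ℕ) : pr d m ≤ m ^ m * d ^ (m * m) := by
  unfold pr
  calc ∏ j ∈ range m, ∑ i ∈ range (j + 1), d ^ i ≤ ∏ _j ∈ range m, m * d ^ m := by
        refine prod_le_prod' fun j hj => ?_
        have hj := mem_range.1 hj
        calc ∑ i ∈ range (j + 1), d ^ i ≤ ∑ _i ∈ range (j + 1), d ^ m :=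
              sum_le_sum fun i hi => Nat.pow_le_pow_right hd (by
                have := mem_range.1 hi; omega)
          _ = (j + 1) * d ^ m := by rw [sum_const, card_range, smul_eq_mul]
          _ ≤ m * d ^ m := Nat.mul_le_mul_right _ (by omega)
    _ = (m * d ^ m) ^ m := by rw [prod_const, card_range]
    _ = m ^ m * d ^ (m * m) := by rw [mul_pow, ← pow_mul]

/-- the primes `q ∈ [y, x]` whose `j`-th iterate is a prime -/
def PS (a d : ℤ) (j : ℕ) (y x : ℝ) : Set ℕ :=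
  {q : ℕ | (q.Prime ∧ ∃ p : ℕ, p.Prime ∧ itc a d j + q * d ^ j = p) ∧ y ≤ q ∧ (q : ℝ) ≤ x}

theorem PS_finite (a d : ℤ) (j : ℕ) (y x : ℝ) : (PS a d j y x).Finite := by
  refine (Set.finite_le_nat ⌊x⌋₊).subset fun q hq => ?_
  exact Nat.le_floor hq.2.2

/-- their number -/
noncomputable def cnt (a d : ℤ) (j : ℕ) (y x : ℝ) : ℕ := (PS a d j y x).ncard

/-- `gcd(a, d) = 1` and `2 ∣ a d` -/
def Ad (a d : ℤ) : Prop := Int.gcd a d = 1 ∧ 2 ∣ a * d

/-- the iterates with the exponents `e` have no fixed prime divisor -/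
def AdE {ι : Type*} (e : ι → ℕ) (a d : ℤ) : Prop :=
  ∀ p : ℕ, p.Prime → ∃ n : ℤ, ∀ g, ¬ (p : ℤ) ∣ d ^ e g * n + itc a d (e g)

theorem Ad_congr {a b d : ℤ} {q : ℤ} (hq : d ∣ q) (hq2 : 2 ∣ q) (h : q ∣ a - b) (hb : Ad b d) :
    Ad a d := by
  obtain ⟨k, hk⟩ := h
  obtain ⟨s, hs⟩ := hq
  have ha : a = b + d * (s * k) := by rw [hs] at hk; linear_combination hk
  refine ⟨?_, ?_⟩
  · rw [ha, ← Int.isCoprime_iff_gcd_eq_one]
    exact (Int.isCoprime_iff_gcd_eq_one.2 hb.1).add_mul_left_left _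
  · have h1 : a * d = b * d + q * (k * d) := by linear_combination d * hk
    rw [h1]
    exact dvd_add hb.2 (Dvd.dvd.mul_right hq2 _)

/-- a prime larger than the number of the forms -/
theorem avoid {ι : Type*} [Fintype ι] (A B : ι → ℤ) {p : ℕ} (hp : p.Prime)
    (hA : ∀ i, ¬ (p : ℤ) ∣ A i) (hc : Fintype.card ι < p) :
    ∃ n : ℤ, ∀ i, ¬ (p : ℤ) ∣ A i * n + B i := by
  classical
  by_contra hcon
  push Not at hcon
  have hpp := Nat.prime_iff_prime_int.1 hp
  choose f hf using fun n : ℕ => hcon n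
  have h1 : Set.InjOn f (range p : Finset ℕ) := by
    intro x hx y hy hxy
    have hx := mem_range.1 (mem_coe.1 hx)
    have hy := mem_range.1 (mem_coe.1 hy)
    have h2 := hf x
    have h3 := hf y
    rw [← hxy] at h3
    have h4 : (p : ℤ) ∣ A (f x) * ((x : ℤ) - y) := by
      have := dvd_sub h2 h3
      have e : A (f x) * x + B (f x) - (A (f x) * y + B (f x)) = A (f x) * ((x : ℤ) - y) := by ring
      rwa [e] at this
    rcases hpp.dvd_or_dvd h4 with h5 | h5
    · exact absurd h5 (hA _)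
    · by_contra hne
      have h6 : ((x : ℤ) - y) ≠ 0 := by
        intro h
        apply hne
        have : (x : ℤ) = y := by linarith
        exact_mod_cast this
      have h7 := Int.le_of_dvd (abs_pos.2 h6) ((dvd_abs _ _).2 h5)
      have h8 : |(x : ℤ) - y| < p := by
        rw [abs_lt]
        constructor <;> omega
      omega
  have h2 := Finset.card_le_card_of_injOn f (t := univ) (fun _ _ => mem_coe.2 (mem_univ _)) h1
  rw [card_range, card_univ] at h2
  omega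

/-- pigeonhole -/
theorem pigeon {Γ : Type*} [Fintype Γ] [DecidableEq Γ] (Bad : Finset ℤ) (R : Finset ℕ) (ρ : ℤ → ℕ)
    (γ : ℤ → Γ) (hρ : ∀ a ∈ Bad, ρ a ∈ R) (b : ℝ)
    (h : (R.card : ℝ) * Fintype.card Γ * b < Bad.card) :
    ∃ r ∈ R, ∃ G : Γ, b < ((Bad.filter (fun a => ρ a = r ∧ γ a = G)).card : ℝ) := by
  by_contra hcon
  push Not at hcon
  have h1 := card_eq_sum_card_fiberwise (f := fun a => (ρ a, γ a)) (s := Bad)
    (t := R ×ˢ (univ : Finset Γ)) (fun a ha => by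
      rw [mem_coe, mem_product]
      exact ⟨hρ a ha, mem_univ _⟩)
  have h2 : (Bad.card : ℝ) ≤ ∑ _x ∈ R ×ˢ (univ : Finset Γ), b := by
    rw [h1]
    push_cast
    refine sum_le_sum fun x hx => ?_
    refine le_trans (le_of_eq ?_) (hcon x.1 (mem_product.1 hx).1 x.2)
    congr 2
    ext a
    simp only [mem_filter, Prod.ext_iff]
  rw [sum_const, card_product, card_univ, nsmul_eq_mul] at h2
  push_cast at h2
  linarith

end Pool.Agent.Y863.AA
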