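import Mathlib
import Pool.Agent.Y877.Comb

/-!
# Homothetic copies in dense sets of integers, uniformly in the shape

From the density Hales-Jewett theorem of the team's files (`Pool.Agent.H602R3.DHJ`, through
`Pool.Agent.Y877.Comb`).
-/

set_option autoImplicit false

namespace Pool.Agent.Y863.AA

open Finset Pool.Agent.H602R3.DHJ Pool.Agent.Y877

open Classical in
/-- homothetic copies of a family of integers in dense sets, with explicit dependence on its size -/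
theorem msz (α : Type) [Fintype α] [Nonempty α] (ε : ℝ) (hε : 0 < ε) : ∃ n : ℕ, 1 ≤ n ∧
    ∀ (v : α → ℤ) (W : ℕ), (∀ a, |v a| ≤ W) →
    ∀ H : ℕ, n * W ≤ H → 1 ≤ H → ∀ B : Finset ℕ, B ⊆ Ioc 0 H → ε * H ≤ B.card →
    ∃ (x : ℤ) (l : ℕ), 1 ≤ l ∧ l ≤ n ∧ ∀ a, ∃ k ∈ B, x + l * v a = (k : ℤ) := by
  obtain ⟨N, hN⟩ := dhjT α (ε / 8) (by positivity)
  refine ⟨N + 1, by omega, fun v W hv H hH hH1 B hB hBc => ?_⟩
  have h1 := count_z (α := α) ε hN H hH1 0 (fun u => ∑ i, v (u i)) (fun u => by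
    have h2 : |∑ i, v (u i)| ≤ ∑ i, |v (u i)| := abs_sum_le_sum_abs _ _
    have h3 : ∑ i, |v (u i)| ≤ ∑ _i : Fin N, (W : ℤ) := sum_le_sum fun i _ => hv _
    rw [sum_const, card_univ, Fintype.card_fin, nsmul_eq_mul] at h3
    have h4 : ((N + 1 : ℕ) : ℤ) * W ≤ H := by exact_mod_cast hH
    push_cast at h4
    have h5 : (0 : ℤ) ≤ W := Nat.cast_nonneg _
    linarith) B (by simpa using hB) hBc hε
  have hHr : (1 : ℝ) ≤ H := by exact_mod_cast hH1
  have h2 : (0 : ℝ) < ε / 2 * H := by positivity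
  have h3 := h2.trans_le h1
  rw [Nat.cast_pos, card_pos] at h3
  obtain ⟨z, hz⟩ := h3
  obtain ⟨V, hV, hz⟩ := (mem_filter.1 hz).2
  obtain ⟨s, hs⟩ := line_sum V v
  refine ⟨z + s, act V, act_pos V hV, (act_le V).trans (by omega), fun a => ?_⟩
  obtain ⟨k, hk, h⟩ := hz a
  refine ⟨k, hk, ?_⟩
  rw [hs a] at h
  rw [← h]; ring

end Pool.Agent.Y863.AA
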