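import Mathlib
import Pool.Agent.Y863.AA.Msz
import Pool.Agent.Y863.AA.Defs

/-!
# Homothetic copies inside a residue class and a colour class
-/

set_option autoImplicit false

namespace Pool.Agent.Y863.AA

open Finset Filter Pool.Agent.W25.IT

open Classical in
theorem adm_lower (Q : ℤ → Prop) (q : ℕ) (u : ℤ)
    (hQ : ∀ a b : ℤ, u < a → u < b → (q : ℤ) ∣ a - b → Q b → Q a)
    (hq : 1 ≤ q) (H : ℕ) :
    ((range q).filter (fun r : ℕ => Q (u + 1 + r))).card * (H / q) ≤
      ((Ioc u (u + H)).filter (fun a : ℤ => Q a)).card := by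
  rw [← card_range (H / q), ← card_product]
  refine card_le_card_of_injOn (fun x : ℕ × ℕ => u + 1 + x.1 + q * x.2) ?_ ?_
  · rintro ⟨r, s⟩ h
    rw [mem_coe, mem_product, mem_filter, mem_range, mem_range] at h
    obtain ⟨⟨h1, h3⟩, h4⟩ := h
    simp only at h1 h3 h4
    have h5 : q * (s + 1) ≤ H := (Nat.mul_le_mul_left q (by omega : s + 1 ≤ H / q)).trans
      (Nat.mul_div_le H q)
    rw [mem_coe, mem_filter, mem_Ioc]
    have h6 : (q : ℤ) * (s + 1) ≤ H := by exact_mod_cast h5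
    have h7 : (0 : ℤ) ≤ q * s := by positivity
    have h8 : (r : ℤ) < q := by exact_mod_cast h1
    refine ⟨⟨?_, ?_⟩, ?_⟩
    · show u < u + 1 + r + q * s
      have : (0 : ℤ) ≤ r := Nat.cast_nonneg _
      linarith
    · show u + 1 + r + q * s ≤ u + H
      linarith
    · show Q (u + 1 + r + q * s)
      have : (0 : ℤ) ≤ r := Nat.cast_nonneg _
      refine hQ _ _ (by linarith) (by linarith) ?_ h3
      exact ⟨s, by ring⟩
  · rintro ⟨r, s⟩ h ⟨r', s'⟩ h' he
    rw [mem_coe, mem_product, mem_filter, mem_range, mem_range] at h h'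
    have h1 := h.1.1
    have h3 := h'.1.1
    simp only at h1 h3 he
    have h4 : r + q * s = r' + q * s' := by
      have : ((r + q * s : ℕ) : ℤ) = ((r' + q * s' : ℕ) : ℤ) := by push_cast; linarith
      exact_mod_cast this
    have h5 : r = r' := by
      have := congrArg (· % q) h4
      simpa [Nat.add_mul_mod_self_left, Nat.mod_eq_of_lt h1, Nat.mod_eq_of_lt h3] using this
    subst h5
    have h6 : q * s = q * s' := by omega
    have h7 := Nat.eq_of_mul_eq_mul_left (by omega) h6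
    rw [h7]

/-- the coordinates of `a` -/
theorem coord (q : ℕ) (u : ℤ) (H : ℕ) (a : ℤ) (ha : a ∈ Ioc u (u + H)) :
    a = u + 1 + ((a - u - 1).toNat % q : ℕ) + q * (((a - u - 1).toNat / q + 1 : ℕ) - 1) ∧
      (a - u - 1).toNat / q + 1 ∈ Ioc 0 (H / q + 1) := by
  rw [mem_Ioc] at ha
  have h0 : (((a - u - 1).toNat : ℕ) : ℤ) = a - u - 1 := Int.toNat_of_nonneg (by omega)
  refine ⟨?_, ?_⟩
  · have h1 := Nat.mod_add_div (a - u - 1).toNat q
    have h2 : (((a - u - 1).toNat % q : ℕ) : ℤ) + q * (((a - u - 1).toNat / q : ℕ) : ℤ) =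
        a - u - 1 := by
      rw [← h0]; exact_mod_cast h1
    push_cast at h2 ⊢
    linarith
  · rw [mem_Ioc]
    refine ⟨Nat.succ_pos _, ?_⟩
    have : (a - u - 1).toNat / q ≤ H / q := Nat.div_le_div_right (by omega)
    omega

open Classical in
/-- homothetic copies inside a residue class and a colour class of a set which contains more than
`ε` of the numbers with a periodic property -/
theorem copy (α Γ : Type) [Fintype α] [Nonempty α] [Fintype Γ] [Nonempty Γ] (ε : ℝ) (hε : 0 < ε) :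
    ∃ n : ℕ, 1 ≤ n ∧ ∀ (Q : ℤ → Prop) (q : ℕ) (u : ℤ),
      (∀ a b : ℤ, u < a → u < b → (q : ℤ) ∣ a - b → Q b → Q a) →
      1 ≤ q → ∀ (v : α → ℤ) (W : ℕ), (∀ z, |v z| ≤ W) →
      ∀ H : ℕ, n * W ≤ H / q → q ≤ H → ∀ Bad : Finset ℤ, Bad ⊆ Ioc u (u + H) →
      (∀ a ∈ Bad, Q a) → ∀ γ : ℤ → Γ,
      ε * (((Ioc u (u + H)).filter (fun a : ℤ => Q a)).card : ℝ) < Bad.card →
      ∃ (x : ℤ) (l : ℕ) (G : Γ), 1 ≤ l ∧ l ≤ n ∧ ∀ z, x + l * (q * v z) ∈ Bad ∧
        γ (x + l * (q * v z)) = G := by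
  have hΓ : (0 : ℝ) < Fintype.card Γ := by exact_mod_cast Fintype.card_pos
  obtain ⟨n, hn, hmsz⟩ := msz α (ε / (2 * Fintype.card Γ)) (by positivity)
  refine ⟨n, hn, fun Q q u hQ hq v W hv H hW hH Bad hBad hAd γ hlt => ?_⟩
  set R := (range q).filter (fun r : ℕ => Q (u + 1 + r)) with hR
  have hlow := adm_lower Q q u hQ hq H
  rw [← hR] at hlow
  set b : ℝ := ε / Fintype.card Γ * (H / q : ℕ) with hb
  obtain ⟨r, hr, G, hG⟩ := pigeon Bad R (fun a => (a - u - 1).toNat % q) γ (by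
      intro a ha
      rw [hR, mem_filter, mem_range]
      refine ⟨Nat.mod_lt _ (by omega), ?_⟩
      obtain ⟨h1, h3⟩ := coord q u H a (hBad ha)
      have h0 := (mem_Ioc.1 (hBad ha)).1
      refine hQ _ _ (by
        have : (0 : ℤ) ≤ (((a - u - 1).toNat % q : ℕ) : ℤ) := Nat.cast_nonneg _
        linarith) h0 ?_ (hAd a ha)
      refine ⟨-(((a - u - 1).toNat / q + 1 : ℕ) - 1), ?_⟩
      linear_combination -h1) b (by
      refine lt_of_le_of_lt ?_ hlt
      have h3 : ((R.card * (H / q) : ℕ) : ℝ) ≤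
          (((Ioc u (u + H)).filter (fun a : ℤ => Q a)).card : ℝ) := by exact_mod_cast hlow
      calc (R.card : ℝ) * Fintype.card Γ * b = ε * ((R.card * (H / q) : ℕ) : ℝ) := by
            rw [hb]; push_cast; field_simp
        _ ≤ _ := mul_le_mul_of_nonneg_left h3 hε.le)
  set F := Bad.filter (fun a => (a - u - 1).toNat % q = r ∧ γ a = G) with hF
  set κ : ℤ → ℕ := fun a => (a - u - 1).toNat / q + 1 with hκ
  set B := F.image κ with hB
  have hrec : ∀ a ∈ F, a = u + 1 + r + q * ((κ a : ℤ) - 1) := by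
    intro a ha
    obtain ⟨h1, h3, -⟩ := mem_filter.1 ha
    obtain ⟨h4, -⟩ := coord q u H a (hBad h1)
    rw [h3] at h4
    exact h4
  have hBc : B.card = F.card := by
    apply card_image_of_injOn
    intro a ha a' ha' h
    rw [hrec a ha, hrec a' ha']
    have h1 : κ a = κ a' := h
    rw [h1]
  have hH1 : 1 ≤ H / q := Nat.div_pos hH (by omega)
  obtain ⟨x, l, hl1, hln, hx⟩ := hmsz v W hv (H / q + 1) (by omega) (by omega) B (by
      intro k hk
      obtain ⟨a, ha, rfl⟩ := mem_image.1 hk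
      exact (coord q u H a (hBad (mem_filter.1 ha).1)).2) (by
      rw [hBc]
      refine le_trans ?_ hG.le
      have h3 : (1 : ℝ) ≤ (H / q : ℕ) := by exact_mod_cast hH1
      rw [hb]
      have h4 : ε / (2 * Fintype.card Γ) * ((H / q + 1 : ℕ) : ℝ) =
          ε / Fintype.card Γ * ((((H / q : ℕ) : ℝ) + 1) / 2) := by
        push_cast; field_simp
      rw [h4]
      refine mul_le_mul_of_nonneg_left ?_ (by positivity)
      linarith)
  refine ⟨u + 1 + r + q * (x - 1), l, G, hl1, hln, fun z => ?_⟩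
  obtain ⟨k, hk, h⟩ := hx z
  obtain ⟨a, ha, rfl⟩ := mem_image.1 hk
  have h1 : u + 1 + r + q * (x - 1) + l * (q * v z) = a := by
    rw [hrec a ha, ← h]; ring
  rw [h1]
  exact ⟨(mem_filter.1 ha).1, (mem_filter.1 ha).2.2⟩

end Pool.Agent.Y863.AA
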