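import Mathlib
import Pool.Agent.Y863.AA.Cls
import Pool.Agent.TH899.UG.ExW

/-!
# Almost all `a`: the core theorem at one scale

The coloured Maynard-Tao theorem with a constant below `4` in short windows
(`Pool.Agent.TH899.UG.NW.exactW`) is from the starting files.
-/

set_option autoImplicit false

namespace Pool.Agent.Y863.AA

open Finset Filter Pool.Agent.W25.IT Nat

open Classical in
/-- no `M + 1` of the exponents have pairwise good differences -/
def NoClq {T : ℕ} (M : ℕ) (e : Fin T → ℕ) (a d : ℤ) (Y y x : ℝ) : Prop :=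
  ¬ ∃ S : Finset (Fin T), M + 1 ≤ S.card ∧ ∀ g ∈ S, ∀ h ∈ S, g < h →
    Y ≤ (cnt a d (e h - e g) y x : ℝ)

theorem cnt_ge (F : Finset ℕ) (a : ℤ) (d j : ℕ) (D β : ℤ) (hD : 0 < D) (y x : ℝ)
    (h : ∀ n ∈ F, (D * n + β).toNat.Prime ∧ ((d : ℤ) ^ j * (D * n + β) + itc a d j).toNat.Prime ∧
      y ≤ ((D * n + β : ℤ) : ℝ) ∧ ((D * n + β : ℤ) : ℝ) ≤ x) : F.card ≤ cnt a d j y x := by
  classical
  have hpos : ∀ n ∈ F, (((D * n + β).toNat : ℕ) : ℤ) = D * n + β := by
    intro n hn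
    apply Int.toNat_of_nonneg
    by_contra hneg
    push Not at hneg
    have h1 := (h n hn).1
    rw [Int.toNat_of_nonpos hneg.le] at h1
    exact Nat.not_prime_zero h1
  have hc : (F.image (fun n : ℕ => (D * n + β).toNat)).card = F.card := by
    apply Finset.card_image_of_injOn
    intro n hn n' hn' he
    have h1 : (D * n + β).toNat = (D * n' + β).toNat := he
    have h2 : D * n + β = D * n' + β := by
      rw [← hpos n hn, ← hpos n' hn', h1]
    have h3 : D * (n : ℤ) = D * n' := by linarith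
    exact_mod_cast mul_left_cancel₀ hD.ne' h3
  rw [← hc, ← Set.ncard_coe_finset]
  refine Set.ncard_le_ncard ?_ (PS_finite _ _ _ _ _)
  intro q hq
  rw [coe_image] at hq
  obtain ⟨n, hn, rfl⟩ := hq
  have hn := mem_coe.1 hn
  obtain ⟨h1, h2, h3, h4⟩ := h n hn
  have h5 := hpos n hn
  have h6 : (((D * n + β).toNat : ℕ) : ℝ) = ((D * n + β : ℤ) : ℝ) := by
    rw [← h5]; push_cast; rfl
  refine ⟨⟨h1, ((d : ℤ) ^ j * (D * n + β) + itc a d j).toNat, h2, ?_⟩, ?_, ?_⟩
  · show itc a d j + (((D * n + β).toNat : ℕ) : ℤ) * (d : ℤ) ^ j = _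
    rw [h5]
    have h7 : 0 ≤ (d : ℤ) ^ j * (D * n + β) + itc a d j := by
      by_contra hneg
      push Not at hneg
      rw [Int.toNat_of_nonpos hneg.le] at h2
      exact Nat.not_prime_zero h2
    rw [Int.toNat_of_nonneg h7]; ring
  · show y ≤ (((D * n + β).toNat : ℕ) : ℝ)
    rw [h6]; exact h3
  · show (((D * n + β).toNat : ℕ) : ℝ) ≤ x
    rw [h6]; exact h4

/-- the scale -/
theorem scale (d m : ℕ) (hd : 1 ≤ d) (η : ℝ) (hη : 0 < η) (hη1 : η ≤ 1) :
    ∀ᶠ X : ℕ in atTop, (X : ℝ) / (2 * d ^ m) ≤ (X / d ^ m : ℕ) ∧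
      (X : ℝ) ^ (1 - η) ≤ ((X / d ^ m : ℕ) : ℝ) ^ (1 - η / 2) := by
  have hdm : (0 : ℝ) < 2 * (d : ℝ) ^ m := by positivity
  have h1 : ∀ᶠ X : ℕ in atTop, (2 * (d : ℝ) ^ m) ^ (1 - η / 2) ≤ (X : ℝ) ^ (η / 2) :=
    ((tendsto_rpow_atTop (by positivity)).comp tendsto_natCast_atTop_atTop).eventually_ge_atTop _
  filter_upwards [h1, eventually_ge_atTop (2 * d ^ m), eventually_ge_atTop 1] with X hX hX2 hX1
  have hX0 : (0 : ℝ) < X := by exact_mod_cast hX1
  have h2 : (X : ℝ) / (2 * d ^ m) ≤ (X / d ^ m : ℕ) := by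
    have hp : 0 < d ^ m := by positivity
    have h3 := Nat.lt_div_mul_add (a := X) hp
    have h4 : 2 ≤ X / d ^ m := (Nat.le_div_iff_mul_le hp).2 hX2
    have h5 : (X : ℝ) < ((X / d ^ m : ℕ) : ℝ) * (d : ℝ) ^ m + (d : ℝ) ^ m := by exact_mod_cast h3
    have h6 : (2 : ℝ) ≤ ((X / d ^ m : ℕ) : ℝ) := by exact_mod_cast h4
    have h7 : (0 : ℝ) < (d : ℝ) ^ m := by positivity
    rw [div_le_iff₀ hdm]
    nlinarith
  refine ⟨h2, ?_⟩
  calc (X : ℝ) ^ (1 - η) ≤ ((X : ℝ) / (2 * d ^ m)) ^ (1 - η / 2) := by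
        rw [Real.div_rpow hX0.le hdm.le, le_div_iff₀ (Real.rpow_pos_of_pos hdm _)]
        calc (X : ℝ) ^ (1 - η) * (2 * (d : ℝ) ^ m) ^ (1 - η / 2)
            ≤ (X : ℝ) ^ (1 - η) * (X : ℝ) ^ (η / 2) :=
              mul_le_mul_of_nonneg_left hX (Real.rpow_nonneg hX0.le _)
          _ = (X : ℝ) ^ (1 - η / 2) := by
              rw [← Real.rpow_add hX0]; congr 1; ring
    _ ≤ _ := Real.rpow_le_rpow (by positivity) h2 (by linarith)

open Classical in
/-- **The core theorem.** -/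
theorem core : ∃ c : ℝ, 0 < c ∧ c < 1 ∧ ∀ T M : ℕ, (4 - c) * M < T → ∀ (m : ℕ) (e : Fin T → ℕ),
    StrictMono e → (∀ g, e g ≤ m) → ∀ ε : ℝ, 0 < ε → ∃ L : ℕ, ∀ d : ℕ, 1 ≤ d → ∃ C : ℕ, 1 ≤ C ∧
    ∀ η : ℝ, 0 < η → η ≤ 1 → ∀ᶠ X : ℕ in atTop, ∀ (u : ℤ) (H : ℕ), L * d ^ ((m + 1) ^ 2) ≤ H →
      (C : ℤ) * (|u| + H) ≤ X →
      (((Ioc u (u + H)).filter (fun a : ℤ => Ad a d ∧ a ≠ 0 ∧ AdE e a d ∧
        NoClq M e a d ((X : ℝ) ^ (1 - η)) (X / C) X)).card : ℝ) ≤
      ε * (((Ioc u (u + H)).filter (fun a : ℤ => Ad a d)).card : ℝ) := by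
  obtain ⟨c, hc, hc1, hex⟩ := Pool.Agent.TH899.UG.NW.exactW
  refine ⟨c, hc, hc1, ?_⟩
  intro T M hTM m e he hem ε hε
  have hT : 1 ≤ T := by
    have h1 : (0 : ℝ) ≤ (4 - c) * M := mul_nonneg (by linarith) (Nat.cast_nonneg _)
    have h2 : (0 : ℝ) < T := lt_of_le_of_lt h1 hTM
    exact_mod_cast h2
  obtain ⟨K, hK, hex⟩ := hex (1 / 8) (1 / 4) le_rfl (by norm_num) le_rfl T M hT hTM
  have : Nonempty (Fin T) := ⟨⟨0, hT⟩⟩
  have : Nonempty (Fin K) := ⟨⟨0, hK⟩⟩
  obtain ⟨n, hn, hcopy⟩ := copy ((Fin T × Fin K) × (Fin T × Fin K)) (Finset (Fin T × Fin T)) ε hε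
  refine ⟨(n * m ^ m * K + 1) * (T * K + 2)!, fun d hd => ?_⟩
  obtain ⟨sm, hsm⟩ : ∃ sm : ℕ, sm = ∑ i ∈ range m, d ^ i := ⟨_, rfl⟩
  have hsmz : gs d m = (sm : ℤ) := by rw [gs_nat, hsm]
  have hdm : 1 ≤ d ^ m := Nat.one_le_pow _ _ hd
  refine ⟨100 * (sm + 2) * d ^ m, Nat.succ_le_of_lt (by positivity), fun η hη hη1 => ?_⟩
  have hdivt : Tendsto (fun X : ℕ => X / d ^ m) atTop atTop := by
    refine tendsto_atTop.2 fun b => ?_
    filter_upwards [eventually_ge_atTop (b * d ^ m)] with X hX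
    exact (Nat.le_div_iff_mul_le (by omega)).2 hX
  filter_upwards [hdivt.eventually (hex (d ^ m) (η / 2) (by positivity)), scale d m hd η hη hη1,
    eventually_ge_atTop 1, hdivt.eventually (eventually_ge_atTop 1)]
    with X hN hsc hX1 hN1 u H hH hCX
  obtain ⟨N, hNdef⟩ : ∃ N : ℕ, N = X / d ^ m := ⟨_, rfl⟩
  rw [← hNdef] at hN hsc hN1
  by_contra hcon
  push Not at hcon
  obtain ⟨q, hq⟩ : ∃ q : ℕ, q = d * (T * K + 2)! := ⟨_, rfl⟩
  have hfac : 1 ≤ (T * K + 2)! := Nat.succ_le_of_lt (Nat.factorial_pos _)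
  have hq1 : 1 ≤ q := by rw [hq]; exact Nat.mul_pos hd hfac
  obtain ⟨P, hP⟩ : ∃ P : ℕ, P = pr d m := ⟨_, rfl⟩
  have hP1 : 0 < P := by rw [hP]; exact pr_pos hd m
  -- the size conditions
  have hsize1 : q * (n * (P * K * d ^ m)) ≤ H := by
    refine le_trans ?_ hH
    have h1 : P ≤ m ^ m * d ^ (m * m) := by rw [hP]; exact pr_le hd m
    calc q * (n * (P * K * d ^ m)) ≤
          d * (T * K + 2)! * (n * (m ^ m * d ^ (m * m) * K * d ^ m)) := by
            rw [hq]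
            exact Nat.mul_le_mul_left _ (Nat.mul_le_mul_left _ (Nat.mul_le_mul_right _
              (Nat.mul_le_mul_right _ h1)))
      _ = (n * m ^ m * K) * (T * K + 2)! * d ^ (m * m + m + 1) := by
            rw [pow_add, pow_add, pow_one]; ring
      _ ≤ (n * m ^ m * K + 1) * (T * K + 2)! * d ^ ((m + 1) ^ 2) := by
            refine Nat.mul_le_mul (Nat.mul_le_mul_right _ (Nat.le_succ _))
              (Nat.pow_le_pow_right hd ?_)
            nlinarith
  have hsize2 : q ≤ H := by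
    refine le_trans ?_ hH
    calc q = 1 * (T * K + 2)! * d ^ 1 := by rw [hq]; ring
      _ ≤ (n * m ^ m * K + 1) * (T * K + 2)! * d ^ ((m + 1) ^ 2) := by
            refine Nat.mul_le_mul (Nat.mul_le_mul_right _ (by omega))
              (Nat.pow_le_pow_right hd ?_)
            exact Nat.one_le_pow _ _ (Nat.succ_pos _)
  -- the shape
  obtain ⟨v, hv⟩ : ∃ v : (Fin T × Fin K) × (Fin T × Fin K) → ℤ, v = fun z =>
    if z.1.1 < z.2.1 then (P : ℤ) / gs d (e z.2.1 - e z.1.1) *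
      (((z.2.2 : ℕ) : ℤ) - (d : ℤ) ^ (e z.2.1 - e z.1.1) * ((z.1.2 : ℕ) : ℤ)) else 0 := ⟨_, rfl⟩
  have hej : ∀ g h : Fin T, g < h → 1 ≤ e h - e g ∧ e h - e g ≤ m := by
    intro g h hgh
    have h1 := he hgh
    have h2 := hem h
    constructor <;> omega
  have hvb : ∀ z, |v z| ≤ ((P * K * d ^ m : ℕ) : ℤ) := by
    intro z
    rw [hv]
    simp only
    split_ifs with hz
    · obtain ⟨hj1, hj2⟩ := hej _ _ hz
      obtain ⟨j, hj⟩ : ∃ j, j = e z.2.1 - e z.1.1 := ⟨_, rfl⟩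
      rw [← hj] at hj1 hj2 ⊢
      have hg := gs_pos hd hj1
      rw [abs_mul]
      have h1 : |(P : ℤ) / gs d j| ≤ P := by
        rw [abs_of_nonneg (Int.ediv_nonneg (Nat.cast_nonneg _) hg.le)]
        exact Int.ediv_le_self _ (Nat.cast_nonneg _)
      have hk1 : ((z.2.2 : ℕ) : ℤ) ≤ K := by exact_mod_cast z.2.2.2.le
      have hk0 : (0 : ℤ) ≤ ((z.2.2 : ℕ) : ℤ) := Nat.cast_nonneg _
      have hi1 : ((z.1.2 : ℕ) : ℤ) ≤ K := by exact_mod_cast z.1.2.2.le
      have hi0 : (0 : ℤ) ≤ ((z.1.2 : ℕ) : ℤ) := Nat.cast_nonneg _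
      have hd1 : (1 : ℤ) ≤ (d : ℤ) ^ j := by exact_mod_cast Nat.one_le_pow j _ hd
      have hd2 : (d : ℤ) ^ j ≤ (d : ℤ) ^ m := by exact_mod_cast Nat.pow_le_pow_right hd hj2
      have hK0 : (0 : ℤ) ≤ K := Nat.cast_nonneg _
      have h2 : |((z.2.2 : ℕ) : ℤ) - (d : ℤ) ^ j * ((z.1.2 : ℕ) : ℤ)| ≤ K * (d : ℤ) ^ m := by
        rw [abs_le]
        constructor
        · nlinarith [mul_le_mul hd2 hi1 hi0 (by positivity)]
        · nlinarith [mul_nonneg (by linarith : (0 : ℤ) ≤ (d : ℤ) ^ j) hi0,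
            mul_le_mul_of_nonneg_left (hd1.trans hd2) hK0]
      calc |(P : ℤ) / gs d j| * |((z.2.2 : ℕ) : ℤ) - (d : ℤ) ^ j * ((z.1.2 : ℕ) : ℤ)|
          ≤ P * (K * (d : ℤ) ^ m) := mul_le_mul h1 h2 (abs_nonneg _) (Nat.cast_nonneg _)
        _ = _ := by push_cast; ring
    · rw [abs_zero]; exact Nat.cast_nonneg _
  obtain ⟨x, l, G, hl1, hln, hx⟩ := hcopy (fun a => Ad a d) q u
    (fun a b _ _ hab hb => Ad_congr (q := q) (by rw [hq]; push_cast; exact Dvd.intro _ rfl)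
      (by
        have h2 : 2 ∣ q := by
          rw [hq]; exact Dvd.dvd.mul_left (Nat.dvd_factorial (by norm_num) (by omega)) _
        exact_mod_cast h2) hab hb) hq1 v
    (P * K * d ^ m) hvb H ((Nat.le_div_iff_mul_le (by omega)).2 (by
      calc n * (P * K * d ^ m) * q = q * (n * (P * K * d ^ m)) := by ring
        _ ≤ H := hsize1)) hsize2 _ (filter_subset _ _) (by
      intro a ha
      exact (mem_filter.1 ha).2.1)
    (fun a => univ.filter (fun z : Fin T × Fin T => z.1 < z.2 ∧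
      (X : ℝ) ^ (1 - η) ≤ (cnt a d (e z.2 - e z.1)
        (X / ((100 * (sm + 2) * d ^ m : ℕ) : ℝ)) X : ℝ))) hcon
  -- the base point
  have hx0 := hx ((Classical.arbitrary _, Classical.arbitrary _),
    (Classical.arbitrary _, Classical.arbitrary _))
  have hv0 : v ((Classical.arbitrary (Fin T), Classical.arbitrary (Fin K)),
      (Classical.arbitrary (Fin T), Classical.arbitrary (Fin K))) = 0 := by
    rw [hv]; simp
  rw [hv0, mul_zero, mul_zero, add_zero] at hx0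
  obtain ⟨hxB, hxG⟩ := hx0
  obtain ⟨hxI, hxA, hx0, hxE, hxN⟩ := mem_filter.1 hxB
  have hxabs : |x| ≤ |u| + H := by
    have h1 := mem_Ioc.1 hxI
    rw [abs_le]
    have h2 := abs_le.1 (le_refl |u|)
    constructor
    · have : (0 : ℤ) ≤ H := Nat.cast_nonneg _
      linarith [h2.1]
    · linarith [h2.2]
  -- the forms
  obtain ⟨b, hb⟩ : ∃ b : Fin T → Fin K → ℤ, b = fun (g : Fin T) (i : Fin K) =>
    itc x d (e g) + l * (q * (P * ((i : ℕ) : ℤ))) := ⟨_, rfl⟩
  have hcross : ∀ (g h : Fin T) (i k : Fin K), g < h →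
      b h k - (d : ℤ) ^ (e h - e g) * b g i =
        itc (x + l * (q * v ((g, i), (h, k)))) d (e h - e g) := by
    intro g h i k hgh
    have h1 := itc_sub x d (he hgh).le
    obtain ⟨hj1, hj2⟩ := hej g h hgh
    have h2 : (P : ℤ) = gs d (e h - e g) * ((P : ℤ) / gs d (e h - e g)) := by
      rw [hP]; exact (Int.mul_ediv_cancel' (pr_dvd d m hj1 hj2)).symm
    rw [hb, itc_eq (x + l * (q * v ((g, i), (h, k)))), hv]
    simp only [if_pos hgh]
    have h3 := itc_eq x d (e h - e g)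
    rw [h3] at h1
    generalize (P : ℤ) / gs d (e h - e g) = R at h2 ⊢
    rw [h2]
    linear_combination h1
  have hbb : ∀ g i, 100 * |b g i| ≤ N := by
    intro g i
    have h1 : |b g i| ≤ (|u| + H) * (sm + 1) := by
      rw [hb]
      have h2 : |itc x d (e g)| ≤ (|u| + H) * sm := by
        rw [itc_eq, abs_mul, abs_of_nonneg (gs_nonneg _ _)]
        refine mul_le_mul hxabs ?_ (gs_nonneg _ _) (by positivity)
        rw [← hsmz]
        exact gs_mono (hem g)
      have h3 : |(l : ℤ) * (q * (P * ((i : ℕ) : ℤ)))| ≤ H := by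
        rw [abs_of_nonneg (by positivity)]
        have h4 : l * (q * (P * (i : ℕ))) ≤ H := by
          refine le_trans ?_ hsize1
          calc l * (q * (P * (i : ℕ))) ≤ n * (q * (P * K)) :=
                Nat.mul_le_mul hln (Nat.mul_le_mul_left _ (Nat.mul_le_mul_left _ i.2.le))
            _ = q * (n * (P * K * 1)) := by ring
            _ ≤ q * (n * (P * K * d ^ m)) :=
                Nat.mul_le_mul_left _ (Nat.mul_le_mul_left _ (Nat.mul_le_mul_left _ hdm))
        exact_mod_cast h4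
      have h5 : (0 : ℤ) ≤ |u| := abs_nonneg _
      calc |itc x d (e g) + l * (q * (P * ((i : ℕ) : ℤ)))| ≤ _ + _ := abs_add_le _ _
        _ ≤ (|u| + H) * sm + H := add_le_add h2 h3
        _ ≤ (|u| + H) * (sm + 1) := by linarith
    have h2 : (100 * ((|u| + H) * (sm + 1))) * (d : ℤ) ^ m ≤ X := by
      refine le_trans ?_ hCX
      push_cast
      have h3 : (0 : ℤ) ≤ (|u| + H) * (d : ℤ) ^ m := by positivity
      nlinarith
    have h4 : (100 * ((|u| + H) * (sm + 1))) ≤ (N : ℤ) := by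
      have h5 : (N : ℤ) = (X : ℤ) / (d : ℤ) ^ m := by rw [hNdef]; push_cast; rfl
      rw [h5]
      exact (Int.le_ediv_iff_mul_le (by exact_mod_cast hdm)).2 h2
    linarith
  have hN0 : (0 : ℝ) < N := by exact_mod_cast hN1
  have hbr : ∀ g i, |(b g i : ℝ)| ≤ N / 100 := by
    intro g i
    have h1 : (100 : ℝ) * |(b g i : ℝ)| ≤ N := by
      have h2 := hbb g i
      have h3 : ((100 * |b g i| : ℤ) : ℝ) ≤ N := by exact_mod_cast h2
      rw [Int.cast_mul, Int.cast_abs] at h3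
      exact_mod_cast h3
    linarith
  have hpowle : ∀ g : Fin T, (1 : ℤ) ≤ (d : ℤ) ^ e g ∧ (d : ℤ) ^ e g ≤ (d : ℤ) ^ m := by
    intro g
    constructor
    · exact_mod_cast Nat.one_le_pow _ _ hd
    · exact_mod_cast Nat.pow_le_pow_right hd (hem g)
  have hvalue : ∀ g i, ∀ y : ℝ, (N : ℝ) / 16 ≤ y →
      (N : ℝ) / 30 ≤ (((d : ℤ) ^ e g : ℤ) : ℝ) * y + (b g i : ℝ) := by
    intro g i y hy
    have h1 := abs_le.1 (hbr g i)
    have h2 : (1 : ℝ) ≤ (((d : ℤ) ^ e g : ℤ) : ℝ) := by exact_mod_cast (hpowle g).1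
    have h3 : y ≤ (((d : ℤ) ^ e g : ℤ) : ℝ) * y := le_mul_of_one_le_left (by
      have : (0 : ℝ) ≤ (N : ℝ) / 16 := by positivity
      linarith) h2
    linarith [h1.1]
  obtain ⟨S, σ, hS, hcard⟩ := hN (fun g _ => (d : ℤ) ^ e g) b
    (fun g i => by have := (hpowle g).1; omega)
    (fun g i => by
      rw [abs_of_nonneg (by have := (hpowle g).1; omega)]
      have := (hpowle g).2
      push_cast
      exact this)
    (fun g i => by
      have h1 := hbb g i
      have h2 : (0 : ℤ) ≤ |b g i| := abs_nonneg _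
      have h3 : (0 : ℤ) ≤ N := Nat.cast_nonneg _
      linarith)
    (fun g i y hy _ => hvalue g i y hy)
    (by
      -- injectivity
      have hlt : ∀ (g h : Fin T) (i k : Fin K), g < h →
          ((d : ℤ) ^ e g, b g i) ≠ ((d : ℤ) ^ e h, b h k) := by
        intro g h i k hgh heq
        obtain ⟨h1, h2⟩ := Prod.ext_iff.1 heq
        simp only at h1 h2
        have h3 := hcross g h i k hgh
        obtain ⟨hj1, hj2⟩ := hej g h hgh
        have h4 : (d : ℤ) ^ (e h - e g) = 1 := by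
          have h5 : (d : ℤ) ^ e h = (d : ℤ) ^ (e h - e g) * (d : ℤ) ^ e g := by
            rw [← pow_add, Nat.sub_add_cancel (he hgh).le]
          rw [← h1] at h5
          have h6 : (d : ℤ) ^ e g ≠ 0 := by have := (hpowle g).1; omega
          have h7 : ((d : ℤ) ^ (e h - e g) - 1) * (d : ℤ) ^ e g = 0 := by linear_combination -h5
          rcases mul_eq_zero.1 h7 with h8 | h8
          · linarith
          · exact absurd h8 h6
        rw [h4, ← h2, one_mul, sub_self, itc_eq] at h3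
        have h9 := (mem_filter.1 (hx ((g, i), (h, k))).1).2.2.1
        rcases mul_eq_zero.1 h3.symm with h10 | h10
        · exact h9 h10
        · exact (gs_pos hd hj1).ne' h10
      rintro ⟨g, i⟩ ⟨h, k⟩ heq
      simp only at heq
      rcases lt_trichotomy g h with hgh | hgh | hgh
      · exact absurd heq (hlt g h i k hgh)
      · subst hgh
        have h2 := (Prod.ext_iff.1 heq).2
        rw [hb] at h2
        simp only at h2
        have h3 := add_left_cancel h2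
        have h4 : (l : ℤ) ≠ 0 := by exact_mod_cast (by omega : l ≠ 0)
        have h5 : (q : ℤ) ≠ 0 := by exact_mod_cast (by omega : q ≠ 0)
        have h6 : (P : ℤ) ≠ 0 := by exact_mod_cast hP1.ne'
        have h7 := mul_left_cancel₀ h6 (mul_left_cancel₀ h5 (mul_left_cancel₀ h4 h3))
        have h8 : i = k := Fin.ext (by exact_mod_cast h7)
        rw [h8]
      · exact absurd heq.symm (hlt h g k i hgh))
    (by
      intro p hp
      have hpp := Nat.prime_iff_prime_int.1 hp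
      by_cases hpq : p ∣ q
      · obtain ⟨w, hw⟩ := hxE p hp
        refine ⟨w, fun g i hdv => hw g ?_⟩
        have h1 : (p : ℤ) ∣ l * (q * (P * ((i : ℕ) : ℤ))) :=
          Dvd.dvd.mul_left (Dvd.dvd.mul_right (by exact_mod_cast hpq) _) _
        have h2 : (d : ℤ) ^ e g * w + b g i =
            ((d : ℤ) ^ e g * w + itc x d (e g)) + l * (q * (P * ((i : ℕ) : ℤ))) := by
          rw [hb]; ring
        rw [h2] at hdv
        exact (dvd_add_left h1).1 hdv
      · have hpd : ¬ p ∣ d := fun h => hpq (by rw [hq]; exact Dvd.dvd.mul_right h _)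
        have hpK : T * K < p := by
          by_contra hle
          push Not at hle
          apply hpq
          rw [hq]
          exact Dvd.dvd.mul_left (Nat.dvd_factorial hp.pos (by omega)) _
        obtain ⟨w, hw⟩ := avoid (ι := Fin T × Fin K) (fun z => (d : ℤ) ^ e z.1)
          (fun z => b z.1 z.2) hp (by
            intro z hz
            exact hpd (by exact_mod_cast hpp.dvd_of_dvd_pow hz)) (by
            rw [Fintype.card_prod, Fintype.card_fin, Fintype.card_fin]; exact hpK)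
        exact ⟨w, fun g i => hw (g, i)⟩)
  -- the clique
  apply hxN
  refine ⟨S, hS, fun g hg h hh hgh => ?_⟩
  have hz := (hx ((g, σ g), (h, σ h))).2
  have hmem : (g, h) ∈ G := by
    rw [← hz]
    refine mem_filter.2 ⟨mem_univ _, hgh, ?_⟩
    refine hsc.2.trans (hcard.trans ?_)
    rw [Nat.cast_le]
    refine cnt_ge _ _ d (e h - e g) ((d : ℤ) ^ e g) (b g (σ g))
      (by have := (hpowle g).1; omega) _ _ ?_
    intro y hy
    obtain ⟨hyI, hy1, hy2, hy3⟩ := mem_filter.1 hy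
    have hyv := hvalue g (σ g) y (by linarith)
    have hcr := hcross g h (σ g) (σ h) hgh
    refine ⟨hy3 g hg, ?_, ?_, ?_⟩
    · rw [← hcr]
      have h5 : (d : ℤ) ^ e h = (d : ℤ) ^ (e h - e g) * (d : ℤ) ^ e g := by
        rw [← pow_add, Nat.sub_add_cancel (he hgh).le]
      have h6 : (d : ℤ) ^ (e h - e g) * ((d : ℤ) ^ e g * y + b g (σ g)) +
          (b h (σ h) - (d : ℤ) ^ (e h - e g) * b g (σ g)) = (d : ℤ) ^ e h * y + b h (σ h) := by
        rw [h5]; ring
      rw [h6]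
      exact hy3 h hh
    · have h6 : (((d : ℤ) ^ e g * y + b g (σ g) : ℤ) : ℝ) =
          (((d : ℤ) ^ e g : ℤ) : ℝ) * y + (b g (σ g) : ℝ) := by push_cast; ring
      rw [h6]
      refine le_trans ?_ hyv
      have h7 : (X : ℝ) ≤ N * (2 * (d : ℝ) ^ m) := (div_le_iff₀ (by positivity)).1 hsc.1
      have h8 : (0 : ℝ) < ((100 * (sm + 2) * d ^ m : ℕ) : ℝ) := by positivity
      rw [div_le_iff₀ h8]
      have h9 : (0 : ℝ) ≤ (N : ℝ) * (d : ℝ) ^ m := by positivity
      have h10 : (0 : ℝ) ≤ (sm : ℝ) * ((N : ℝ) * (d : ℝ) ^ m) := by positivity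
      push_cast
      nlinarith
    · have h6 : (((d : ℤ) ^ e g * y + b g (σ g) : ℤ) : ℝ) =
          (((d : ℤ) ^ e g : ℤ) : ℝ) * y + (b g (σ g) : ℝ) := by push_cast; ring
      rw [h6]
      have h7 : (((d : ℤ) ^ e g : ℤ) : ℝ) ≤ (d : ℝ) ^ m := by exact_mod_cast (hpowle g).2
      have h8 : (N : ℝ) * (d : ℝ) ^ m ≤ X := by
        have := Nat.div_mul_le_self X (d ^ m)
        rw [← hNdef] at this
        exact_mod_cast this
      have h9 := abs_le.1 (hbr g (σ g))
      have h10 : (1 : ℝ) ≤ (d : ℝ) ^ m := by exact_mod_cast hdm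
      have h11 : (((d : ℤ) ^ e g : ℤ) : ℝ) * y ≤ (d : ℝ) ^ m * (1 / 4 * N) :=
        mul_le_mul h7 hy2 (Nat.cast_nonneg _) (by positivity)
      have h12 : (N : ℝ) ≤ N * (d : ℝ) ^ m := le_mul_of_one_le_right hN0.le h10
      linarith [h9.2]
  rw [← hxG] at hmem
  have h1 := (mem_filter.1 hmem).2.2
  exact h1

end Pool.Agent.Y863.AA
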