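import Mathlib
import Pool.Agent.Y863.AA.Core

/-!
# Almost all multiples of a system of exponents: the core theorem at one scale
-/

set_option autoImplicit false

namespace Pool.Agent.Y863.AA

open Finset Filter Pool.Agent.W25.IT Nat

theorem mod_iter {p : ℕ} {a d : ℤ} (h : (p : ℤ) ∣ d - 1) (w : ℤ) {i j : ℕ}
    (hij : (p : ℤ) ∣ (i : ℤ) - j) (h1 : (p : ℤ) ∣ d ^ i * w + itc a d i) :
    (p : ℤ) ∣ d ^ j * w + itc a d j := by
  have h2 := pow_sub_one_dvd h i
  have h3 := pow_sub_one_dvd h j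
  have h4 := itc_mod_d_sub_one (a := a) h i
  have h5 := itc_mod_d_sub_one (a := a) h j
  have h6 : d ^ j * w + itc a d j = (d ^ i * w + itc a d i) - (d ^ i - 1) * w + (d ^ j - 1) * w -
      (itc a d i - i * a) + (itc a d j - j * a) - ((i : ℤ) - j) * a := by ring
  rw [h6]
  exact dvd_sub (dvd_add (dvd_sub (dvd_add (dvd_sub h1 (Dvd.dvd.mul_right h2 _))
    (Dvd.dvd.mul_right h3 _)) h4) h5) (Dvd.dvd.mul_right hij _)

theorem filt_le (Q : ℤ → Prop) (inst : DecidablePred Q) (I : Finset ℤ) :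
    (@Finset.filter ℤ Q inst I).card ≤ I.card := by
  apply Finset.card_le_card
  intro x hx
  exact (Finset.mem_filter.1 hx).1

open Classical in
/-- **The core theorem for the multiples of a system of exponents.** -/
theorem coreB : ∃ c : ℝ, 0 < c ∧ c < 1 ∧ ∀ T M : ℕ, (4 - c) * M < T → ∀ (m : ℕ) (e : Fin T → ℕ),
    StrictMono e → (∀ g, e g ≤ m) → ∀ ε : ℝ, 0 < ε → ∃ L : ℕ, ∀ d : ℕ, 1 ≤ d →
    ∀ u H : ℕ, L ≤ H → ∃ C : ℕ, 1 ≤ C ∧
    ∀ η : ℝ, 0 < η → η ≤ 1 → ∀ᶠ X : ℕ in atTop, ∀ a : ℤ, a ≠ 0 → Ad a d → (C : ℤ) * |a| ≤ X →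
      (((Ioc (u : ℤ) (u + H)).filter (fun k : ℤ => AdE (fun g => e g * k.toNat) a d ∧
        NoClq M (fun g => e g * k.toNat) a d ((X : ℝ) ^ (1 - η)) (X / C) X)).card : ℝ) ≤
      ε * H := by
  obtain ⟨c, hc, hc1, hex⟩ := Pool.Agent.TH899.UG.NW.exactW
  refine ⟨c, hc, hc1, ?_⟩
  intro T M hTM m e he hem ε hε
  have hT : 1 ≤ T := by
    have h1 : (0 : ℝ) ≤ (4 - c) * M := mul_nonneg (by linarith) (Nat.cast_nonneg _)
    have h2 : (0 : ℝ) < T := lt_of_le_of_lt h1 hTM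
    exact_mod_cast h2
  obtain ⟨K, hK, hex⟩ := hex (1 / 8) (1 / 4) le_rfl (by norm_num) le_rfl T M hT hTM
  have : Nonempty (Fin T) := ⟨⟨0, hT⟩⟩
  have : Nonempty (Fin K) := ⟨⟨0, hK⟩⟩
  obtain ⟨n, hn, hcopy⟩ := copy ((Fin T × Fin K) × (Fin T × Fin K)) (Finset (Fin T × Fin T)) ε hε
  obtain ⟨q, hq⟩ : ∃ q : ℕ, q = (T * K + 2)! := ⟨_, rfl⟩
  obtain ⟨P, hP⟩ : ∃ P : ℕ, P = m ! := ⟨_, rfl⟩
  have hP1 : 0 < P := by rw [hP]; exact Nat.factorial_pos _
  have hq1 : 1 ≤ q := by rw [hq]; exact Nat.succ_le_of_lt (Nat.factorial_pos _)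
  refine ⟨(n * (P * K) + 1) * q, fun d hd u H hH => ?_⟩
  have hsize1 : q * (n * (P * K)) ≤ H := by
    refine le_trans ?_ hH
    rw [Nat.mul_comm]
    exact Nat.mul_le_mul_right _ (Nat.le_succ _)
  have hsize2 : q ≤ H := le_trans (Nat.le_mul_of_pos_left _ (Nat.succ_pos _)) hH
  obtain ⟨E, hE⟩ : ∃ E : ℕ, E = m * (u + H) + H := ⟨_, rfl⟩
  obtain ⟨sm, hsm⟩ : ∃ sm : ℕ, sm = ∑ i ∈ range E, d ^ i := ⟨_, rfl⟩
  have hsmz : gs d E = (sm : ℤ) := by rw [gs_nat, hsm]
  have hdm : 1 ≤ d ^ E := Nat.one_le_pow _ _ hd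
  refine ⟨100 * (sm + 2) * d ^ E, Nat.succ_le_of_lt (by positivity), fun η hη hη1 => ?_⟩
  have hdivt : Tendsto (fun X : ℕ => X / d ^ E) atTop atTop := by
    refine tendsto_atTop.2 fun b => ?_
    filter_upwards [eventually_ge_atTop (b * d ^ E)] with X hX
    exact (Nat.le_div_iff_mul_le (by omega)).2 hX
  filter_upwards [hdivt.eventually (hex (d ^ E) (η / 2) (by positivity)), scale d E hd η hη hη1,
    eventually_ge_atTop 1, hdivt.eventually (eventually_ge_atTop 1)]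
    with X hN hsc hX1 hN1 a ha hAd hCX
  obtain ⟨N, hNdef⟩ : ∃ N : ℕ, N = X / d ^ E := ⟨_, rfl⟩
  rw [← hNdef] at hN hsc hN1
  by_contra hcon
  push Not at hcon
  obtain ⟨Bad, hBad⟩ : ∃ Bad : Finset ℤ, Bad = (Ioc (u : ℤ) (u + H)).filter (fun k : ℤ =>
    AdE (fun g => e g * k.toNat) a d ∧ NoClq M (fun g => e g * k.toNat) a d ((X : ℝ) ^ (1 - η))
      (X / ((100 * (sm + 2) * d ^ E : ℕ) : ℝ)) X) := ⟨_, rfl⟩
  rw [← hBad] at hcon
  have hej : ∀ g h : Fin T, g < h → 1 ≤ e h - e g ∧ e h - e g ≤ m := by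
    intro g h hgh
    have h1 := he hgh
    have h2 := hem h
    constructor <;> omega
  -- the shape
  obtain ⟨v, hv⟩ : ∃ v : (Fin T × Fin K) × (Fin T × Fin K) → ℤ, v = fun z =>
    if z.1.1 < z.2.1 then (P : ℤ) / ((e z.2.1 - e z.1.1 : ℕ) : ℤ) *
      (((z.2.2 : ℕ) : ℤ) - ((z.1.2 : ℕ) : ℤ)) else 0 := ⟨_, rfl⟩
  have hvb : ∀ z, |v z| ≤ ((P * K : ℕ) : ℤ) := by
    intro z
    rw [hv]
    simp only
    split_ifs with hz
    · rw [abs_mul]
      have h1 : |(P : ℤ) / ((e z.2.1 - e z.1.1 : ℕ) : ℤ)| ≤ P := by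
        rw [abs_of_nonneg (Int.ediv_nonneg (Nat.cast_nonneg _) (Nat.cast_nonneg _))]
        exact Int.ediv_le_self _ (Nat.cast_nonneg _)
      have h2 : |((z.2.2 : ℕ) : ℤ) - ((z.1.2 : ℕ) : ℤ)| ≤ K := by
        have h3 := z.2.2.2
        have h4 := z.1.2.2
        rw [abs_le]
        constructor <;> omega
      calc |(P : ℤ) / ((e z.2.1 - e z.1.1 : ℕ) : ℤ)| * |((z.2.2 : ℕ) : ℤ) - ((z.1.2 : ℕ) : ℤ)|
          ≤ P * K := mul_le_mul h1 h2 (abs_nonneg _) (Nat.cast_nonneg _)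
        _ = _ := by push_cast; ring
    · rw [abs_zero]; exact Nat.cast_nonneg _
  obtain ⟨x, l, G, hl1, hln, hx⟩ := hcopy (fun _ => True) q u (fun _ _ _ _ _ _ => trivial) hq1 v
    (P * K) hvb H ((Nat.le_div_iff_mul_le (by omega)).2 (by
      calc n * (P * K) * q = q * (n * (P * K)) := by ring
        _ ≤ H := hsize1)) hsize2 Bad (by rw [hBad]; exact filter_subset _ _)
    (fun _ _ => trivial)
    (fun k => univ.filter (fun z : Fin T × Fin T => z.1 < z.2 ∧
      (X : ℝ) ^ (1 - η) ≤ (cnt a d (e z.2 * k.toNat - e z.1 * k.toNat)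
        (X / ((100 * (sm + 2) * d ^ E : ℕ) : ℝ)) X : ℝ))) (by
      have h1 : ((u : ℤ) + H - u).toNat = H := by omega
      refine lt_of_le_of_lt (mul_le_mul_of_nonneg_left ?_ hε.le) hcon
      rw [Nat.cast_le]
      refine le_trans (filt_le _ _ _) ?_
      rw [Int.card_Ioc, h1])
  -- the base point
  have hx0 := hx ((Classical.arbitrary _, Classical.arbitrary _),
    (Classical.arbitrary _, Classical.arbitrary _))
  have hv0 : v ((Classical.arbitrary (Fin T), Classical.arbitrary (Fin K)),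
      (Classical.arbitrary (Fin T), Classical.arbitrary (Fin K))) = 0 := by
    rw [hv]; simp
  rw [hv0, mul_zero, mul_zero, add_zero] at hx0
  obtain ⟨hxB, hxG⟩ := hx0
  obtain ⟨hxI, hxE, hxN⟩ := mem_filter.1 (by rw [hBad] at hxB; exact hxB)
  have hxI' := mem_Ioc.1 hxI
  have hxn : ((x.toNat : ℕ) : ℤ) = x := Int.toNat_of_nonneg (by omega)
  -- the exponents
  obtain ⟨s, hs⟩ : ∃ s : Fin T → Fin K → ℕ, s = fun (g : Fin T) (i : Fin K) =>
    e g * x.toNat + l * (q * (P * (i : ℕ))) := ⟨_, rfl⟩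
  have hsE : ∀ g i, s g i ≤ E := by
    intro g i
    rw [hs, hE]
    have h1 : x.toNat ≤ u + H := by omega
    have h2 : e g * x.toNat ≤ m * (u + H) := Nat.mul_le_mul (hem g) h1
    have h3 : l * (q * (P * (i : ℕ))) ≤ H := by
      refine le_trans ?_ hsize1
      calc l * (q * (P * (i : ℕ))) ≤ n * (q * (P * K)) :=
            Nat.mul_le_mul hln (Nat.mul_le_mul_left _ (Nat.mul_le_mul_left _ i.2.le))
        _ = q * (n * (P * K)) := by ring
    exact Nat.add_le_add h2 h3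
  have hcross : ∀ (g h : Fin T) (i k : Fin K), g < h →
      s h k = s g i + (e h * (x + l * (q * v ((g, i), (h, k)))).toNat -
        e g * (x + l * (q * v ((g, i), (h, k)))).toNat) ∧
      1 ≤ e h * (x + l * (q * v ((g, i), (h, k)))).toNat -
        e g * (x + l * (q * v ((g, i), (h, k)))).toNat := by
    intro g h i k hgh
    obtain ⟨hj1, hj2⟩ := hej g h hgh
    obtain ⟨y, hy⟩ : ∃ y, y = x + l * (q * v ((g, i), (h, k))) := ⟨_, rfl⟩
    have hyB := (hx ((g, i), (h, k))).1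
    rw [← hy] at hyB ⊢
    rw [hBad] at hyB
    have hyI := mem_Ioc.1 (mem_filter.1 hyB).1
    have hyn : ((y.toNat : ℕ) : ℤ) = y := Int.toNat_of_nonneg (by omega)
    have hy1 : 1 ≤ y.toNat := by omega
    rw [← Nat.sub_mul]
    refine ⟨?_, Nat.mul_pos hj1 hy1⟩
    obtain ⟨j, hj⟩ : ∃ j, j = e h - e g := ⟨_, rfl⟩
    rw [← hj] at hj1 hj2 ⊢
    have h2 : (P : ℤ) = (j : ℤ) * ((P : ℤ) / j) := by
      rw [hP]
      exact (Int.mul_ediv_cancel' (by exact_mod_cast Nat.dvd_factorial hj1 hj2)).symm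
    have h3 : y = x + l * (q * ((P : ℤ) / j * (((k : ℕ) : ℤ) - ((i : ℕ) : ℤ)))) := by
      rw [hy, hv]
      simp only [if_pos hgh]
      rw [hj]
    have h4 : ((e h : ℕ) : ℤ) = e g + j := by
      have := he hgh
      omega
    have h5 : ((s h k : ℕ) : ℤ) = s g i + j * (y.toNat : ℕ) := by
      rw [hs, hyn, h3]
      push_cast
      rw [hxn, h4]
      generalize (P : ℤ) / j = R at h2 ⊢
      rw [h2]
      ring
    exact_mod_cast h5
  -- the forms
  obtain ⟨b, hb⟩ : ∃ b : Fin T → Fin K → ℤ, b = fun g i => itc a d (s g i) := ⟨_, rfl⟩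
  have hbb : ∀ g i, 100 * |b g i| ≤ N := by
    intro g i
    have h1 : |b g i| ≤ |a| * sm := by
      rw [hb]
      show |itc a d (s g i)| ≤ _
      rw [itc_eq, abs_mul, abs_of_nonneg (gs_nonneg _ _), ← hsmz]
      exact mul_le_mul_of_nonneg_left (gs_mono (hsE g i)) (abs_nonneg _)
    have h2 : (100 * (|a| * sm)) * (d : ℤ) ^ E ≤ X := by
      refine le_trans ?_ hCX
      push_cast
      have h3 : (0 : ℤ) ≤ |a| * (d : ℤ) ^ E := by positivity
      nlinarith
    have h4 : (100 * (|a| * sm)) ≤ (N : ℤ) := by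
      have h5 : (N : ℤ) = (X : ℤ) / (d : ℤ) ^ E := by rw [hNdef]; push_cast; rfl
      rw [h5]
      exact (Int.le_ediv_iff_mul_le (by exact_mod_cast hdm)).2 h2
    linarith
  have hN0 : (0 : ℝ) < N := by exact_mod_cast hN1
  have hbr : ∀ g i, |(b g i : ℝ)| ≤ N / 100 := by
    intro g i
    have h1 : (100 : ℝ) * |(b g i : ℝ)| ≤ N := by
      have h2 := hbb g i
      have h3 : ((100 * |b g i| : ℤ) : ℝ) ≤ N := by exact_mod_cast h2
      rw [Int.cast_mul, Int.cast_abs] at h3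
      exact_mod_cast h3
    linarith
  have hpowle : ∀ g i, (1 : ℤ) ≤ (d : ℤ) ^ s g i ∧ (d : ℤ) ^ s g i ≤ (d : ℤ) ^ E := by
    intro g i
    constructor
    · exact_mod_cast Nat.one_le_pow _ _ hd
    · exact_mod_cast Nat.pow_le_pow_right hd (hsE g i)
  have hvalue : ∀ g i, ∀ y : ℝ, (N : ℝ) / 16 ≤ y →
      (N : ℝ) / 30 ≤ (((d : ℤ) ^ s g i : ℤ) : ℝ) * y + (b g i : ℝ) := by
    intro g i y hy
    have h1 := abs_le.1 (hbr g i)
    have h2 : (1 : ℝ) ≤ (((d : ℤ) ^ s g i : ℤ) : ℝ) := by exact_mod_cast (hpowle g i).1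
    have h3 : y ≤ (((d : ℤ) ^ s g i : ℤ) : ℝ) * y := le_mul_of_one_le_left (by
      have : (0 : ℝ) ≤ (N : ℝ) / 16 := by positivity
      linarith) h2
    linarith [h1.1]
  obtain ⟨S, σ, hS, hcard⟩ := hN (fun g i => (d : ℤ) ^ s g i) b
    (fun g i => by have := (hpowle g i).1; omega)
    (fun g i => by
      rw [abs_of_nonneg (by have := (hpowle g i).1; omega)]
      have := (hpowle g i).2
      push_cast
      exact this)
    (fun g i => by
      have h1 := hbb g i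
      have h2 : (0 : ℤ) ≤ |b g i| := abs_nonneg _
      have h3 : (0 : ℤ) ≤ N := Nat.cast_nonneg _
      linarith)
    (fun g i y hy _ => hvalue g i y hy)
    (by
      rintro ⟨g, i⟩ ⟨h, k⟩ heq
      simp only at heq
      obtain ⟨h1, h2⟩ := Prod.ext_iff.1 heq
      simp only at h1 h2
      rw [hb] at h2
      have h3 : s g i = s h k := itc_inj (by exact_mod_cast hd) ha h1 h2
      rcases lt_trichotomy g h with hgh | hgh | hgh
      · have := hcross g h i k hgh
        omega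
      · subst hgh
        rw [hs] at h3
        simp only at h3
        have h4 := Nat.add_left_cancel h3
        have h5 := Nat.eq_of_mul_eq_mul_left hP1 (Nat.eq_of_mul_eq_mul_left (by omega)
          (Nat.eq_of_mul_eq_mul_left (by omega) h4))
        rw [Fin.ext h5]
      · have := hcross h g k i hgh
        omega)
    (by
      intro p hp
      have hpp := Nat.prime_iff_prime_int.1 hp
      obtain ⟨w, hw⟩ := iter_admissible (ι := Fin T × Fin K) hAd.1 hAd.2 (fun z => s z.1 z.2) hp (by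
        intro hp3 hpd hpa
        by_cases hpq : p ∣ q
        · obtain ⟨w, hw⟩ := hxE p hp
          refine ⟨w, fun z hdv => hw z.1 ?_⟩
          refine mod_iter hpd w ?_ hdv
          rw [hs]
          push_cast
          have h1 : ((e z.1 : ℕ) : ℤ) * (x.toNat : ℕ) + l * (q * (P * ((z.2 : ℕ) : ℤ))) -
              (e z.1 : ℕ) * (x.toNat : ℕ) = l * (q * (P * ((z.2 : ℕ) : ℤ))) := by ring
          rw [h1]
          exact Dvd.dvd.mul_left (Dvd.dvd.mul_right (by exact_mod_cast hpq) _) _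
        · have hpK : T * K < p := by
            by_contra hle
            push Not at hle
            apply hpq
            rw [hq]
            exact Nat.dvd_factorial hp.pos (by omega)
          refine avoid (ι := Fin T × Fin K) (fun z => (d : ℤ) ^ s z.1 z.2)
            (fun z => itc a d (s z.1 z.2)) hp (by
              intro z hz
              have h1 := hpp.dvd_of_dvd_pow hz
              have h2 := dvd_sub h1 hpd
              rw [sub_sub_cancel] at h2
              exact hpp.not_isUnit (isUnit_of_dvd_one h2)) (by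
              rw [Fintype.card_prod, Fintype.card_fin, Fintype.card_fin]; exact hpK))
      refine ⟨w, fun g i => ?_⟩
      rw [hb]
      exact hw (g, i))
  -- the clique
  apply hxN
  refine ⟨S, hS, fun g hg h hh hgh => ?_⟩
  have hz := (hx ((g, σ g), (h, σ h))).2
  have hmem : (g, h) ∈ G := by
    rw [← hz]
    refine mem_filter.2 ⟨mem_univ _, hgh, ?_⟩
    refine hsc.2.trans (hcard.trans ?_)
    rw [Nat.cast_le]
    simp only
    obtain ⟨hcr, hcr1⟩ := hcross g h (σ g) (σ h) hgh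
    obtain ⟨j, hj⟩ : ∃ j, j = e h * (x + l * (q * v ((g, σ g), (h, σ h)))).toNat -
        e g * (x + l * (q * v ((g, σ g), (h, σ h)))).toNat := ⟨_, rfl⟩
    rw [← hj] at hcr hcr1 ⊢
    refine cnt_ge _ a d j ((d : ℤ) ^ s g (σ g)) (b g (σ g))
      (by have := (hpowle g (σ g)).1; omega) _ _ ?_
    intro y hy
    obtain ⟨hyI, hy1, hy2, hy3⟩ := mem_filter.1 hy
    have hyv := hvalue g (σ g) y (by linarith)
    refine ⟨hy3 g hg, ?_, ?_, ?_⟩
    · have h6 : (d : ℤ) ^ j * ((d : ℤ) ^ s g (σ g) * y + b g (σ g)) + itc a d j =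
          (d : ℤ) ^ s h (σ h) * y + b h (σ h) := by
        have h7 : b h (σ h) = itc a d j + (d : ℤ) ^ j * b g (σ g) := by
          rw [hb]
          show itc a d (s h (σ h)) = itc a d j + (d : ℤ) ^ j * itc a d (s g (σ g))
          rw [hcr, add_comm (s g (σ g)) j, itc_add]
        rw [h7, hcr, pow_add]
        ring
      rw [h6]
      exact hy3 h hh
    · have h6 : (((d : ℤ) ^ s g (σ g) * y + b g (σ g) : ℤ) : ℝ) =
          (((d : ℤ) ^ s g (σ g) : ℤ) : ℝ) * y + (b g (σ g) : ℝ) := by push_cast; ring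
      rw [h6]
      refine le_trans ?_ hyv
      have h7 : (X : ℝ) ≤ N * (2 * (d : ℝ) ^ E) := (div_le_iff₀ (by positivity)).1 hsc.1
      have h8 : (0 : ℝ) < ((100 * (sm + 2) * d ^ E : ℕ) : ℝ) := by positivity
      rw [div_le_iff₀ h8]
      have h9 : (0 : ℝ) ≤ (N : ℝ) * (d : ℝ) ^ E := by positivity
      have h10 : (0 : ℝ) ≤ (sm : ℝ) * ((N : ℝ) * (d : ℝ) ^ E) := by positivity
      push_cast
      nlinarith
    · have h6 : (((d : ℤ) ^ s g (σ g) * y + b g (σ g) : ℤ) : ℝ) =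
          (((d : ℤ) ^ s g (σ g) : ℤ) : ℝ) * y + (b g (σ g) : ℝ) := by push_cast; ring
      rw [h6]
      have h7 : (((d : ℤ) ^ s g (σ g) : ℤ) : ℝ) ≤ (d : ℝ) ^ E := by
        exact_mod_cast (hpowle g (σ g)).2
      have h8 : (N : ℝ) * (d : ℝ) ^ E ≤ X := by
        have := Nat.div_mul_le_self X (d ^ E)
        rw [← hNdef] at this
        exact_mod_cast this
      have h9 := abs_le.1 (hbr g (σ g))
      have h10 : (1 : ℝ) ≤ (d : ℝ) ^ E := by exact_mod_cast hdm
      have h11 : (((d : ℤ) ^ s g (σ g) : ℤ) : ℝ) * y ≤ (d : ℝ) ^ E * (1 / 4 * N) :=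
        mul_le_mul h7 hy2 (Nat.cast_nonneg _) (by positivity)
      have h12 : (N : ℝ) ≤ N * (d : ℝ) ^ E := le_mul_of_one_le_right hN0.le h10
      linarith [h9.2]
  rw [← hxG] at hmem
  exact (mem_filter.1 hmem).2.2

end Pool.Agent.Y863.AA
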