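import Mathlib
import Pool.Agent.Y863.AA.CoreB

/-!
# From one scale to infinitely many primes
-/

set_option autoImplicit false

namespace Pool.Agent.Y863.AA

open Finset Filter Topology Pool.Agent.W25.IT Pool.Agent.H732R3.BigQ

theorem not_good {a : ℤ} {d : ℕ} {j : ℕ} (hd : 1 ≤ d)
    (h : ¬ GoodPair (itc a d j) ((d : ℤ) ^ j)) (C : ℕ) :
    ∀ᶠ η in 𝓝[>] (0 : ℝ), ∀ᶠ X : ℕ in atTop, (cnt a d j (X / C) X : ℝ) < (X : ℝ) ^ (1 - η) := by
  have hnb : ¬ Big {q : ℕ | q.Prime ∧ ∃ p : ℕ, p.Prime ∧ itc a d j + q * (d : ℤ) ^ j = p} :=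
    fun hb => h (goodPair_of_big (by positivity) hb)
  unfold Big at hnb
  push Not at hnb
  obtain ⟨η, hη, hnb⟩ := hnb
  filter_upwards [Ioc_mem_nhdsGT hη] with η' hη'
  filter_upwards [tendsto_natCast_atTop_atTop.eventually hnb, eventually_ge_atTop 1] with X hX hX1
  have hX1' : (1 : ℝ) ≤ X := by exact_mod_cast hX1
  calc (cnt a d j (X / C) X : ℝ) ≤ ({n : ℕ | n ∈ {q : ℕ | q.Prime ∧ ∃ p : ℕ, p.Prime ∧
        itc a d j + q * (d : ℤ) ^ j = p} ∧ (n : ℝ) ≤ X}.ncard : ℝ) := by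
        rw [Nat.cast_le]
        refine Set.ncard_le_ncard ?_ (fin_le _ _)
        intro q hq
        exact ⟨hq.1, hq.2.2⟩
    _ < (X : ℝ) ^ (1 - η) := hX
    _ ≤ (X : ℝ) ^ (1 - η') := Real.rpow_le_rpow_of_exponent_le hX1' (by linarith [hη'.2])

open Classical in
/-- no `M + 1` of the exponents have pairwise good differences -/
def NoGood {T : ℕ} (M : ℕ) (e : Fin T → ℕ) (a d : ℤ) : Prop :=
  ¬ ∃ S : Finset (Fin T), M + 1 ≤ S.card ∧ ∀ g ∈ S, ∀ h ∈ S, g < h →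
    GoodPair (itc a d (e h - e g)) (d ^ (e h - e g))

open Classical in
theorem pass {ι : Type*} (I : Finset ι) (T M : ℕ) (a : ι → ℤ) (e : ι → Fin T → ℕ) (d : ℕ)
    (hd : 1 ≤ d) (P : ι → Prop) (C : ℕ) (B : ℝ)
    (h : ∀ η : ℝ, 0 < η → η ≤ 1 → ∀ᶠ X : ℕ in atTop, ((I.filter (fun s => P s ∧
      NoClq M (e s) (a s) d ((X : ℝ) ^ (1 - η)) (X / C) X)).card : ℝ) ≤ B) :
    ((I.filter (fun s => P s ∧ NoGood M (e s) (a s) d)).card : ℝ) ≤ B := by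
  have h1 : ∀ᶠ η in 𝓝[>] (0 : ℝ), ∀ s ∈ I, ∀ z : Fin T × Fin T,
      ¬ GoodPair (itc (a s) d (e s z.2 - e s z.1)) ((d : ℤ) ^ (e s z.2 - e s z.1)) →
      ∀ᶠ X : ℕ in atTop, (cnt (a s) d (e s z.2 - e s z.1) (X / C) X : ℝ) < (X : ℝ) ^ (1 - η) := by
    rw [Filter.eventually_all_finset]
    intro s _
    rw [Filter.eventually_all]
    intro z
    by_cases hg : GoodPair (itc (a s) d (e s z.2 - e s z.1)) ((d : ℤ) ^ (e s z.2 - e s z.1))
    · exact Eventually.of_forall fun η hn => absurd hg hn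
    · filter_upwards [not_good hd hg C] with η hη _
      exact hη
  obtain ⟨η, h2, hη0, hη1⟩ := (h1.and (Ioc_mem_nhdsGT (zero_lt_one' ℝ))).exists
  have h3 : ∀ᶠ X : ℕ in atTop, ∀ s ∈ I, ∀ z : Fin T × Fin T,
      ¬ GoodPair (itc (a s) d (e s z.2 - e s z.1)) ((d : ℤ) ^ (e s z.2 - e s z.1)) →
      (cnt (a s) d (e s z.2 - e s z.1) (X / C) X : ℝ) < (X : ℝ) ^ (1 - η) := by
    rw [Filter.eventually_all_finset]
    intro s hs
    rw [Filter.eventually_all]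
    intro z
    by_cases hg : GoodPair (itc (a s) d (e s z.2 - e s z.1)) ((d : ℤ) ^ (e s z.2 - e s z.1))
    · exact Eventually.of_forall fun η hn => absurd hg hn
    · filter_upwards [h2 s hs z hg] with X hX _
      exact hX
  obtain ⟨X, hX1, hX2⟩ := (h3.and (h η hη0 hη1)).exists
  refine le_trans ?_ hX2
  rw [Nat.cast_le]
  apply card_le_card
  intro s hs
  obtain ⟨hsI, hsP, hsN⟩ := mem_filter.1 hs
  refine mem_filter.2 ⟨hsI, hsP, ?_⟩
  rintro ⟨S, hS, hcl⟩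
  refine hsN ⟨S, hS, fun g hg k hk hgk => ?_⟩
  by_contra hng
  have h4 := hX1 s hsI (g, k) hng
  have h5 := hcl g hg k hk hgk
  exact absurd h5 (not_le.2 h4)

/-! ## Four exponents -/

/-- the exponents `0, 1, 2, 3` -/
def E0 : Fin 4 → ℕ := fun g => g

/-- the exponents `0, 1, 3, 4` -/
def E1 : Fin 4 → ℕ := ![0, 1, 3, 4]

theorem E0_mono : StrictMono E0 := fun _ _ h => h

theorem E1_mono : StrictMono E1 := by decide

theorem E0_le : ∀ g, E0 g ≤ 4 := by decide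

theorem E1_le : ∀ g, E1 g ≤ 4 := by decide

theorem E0_diff : ∀ g h : Fin 4, g < h → 1 ≤ E0 h - E0 g ∧ E0 h - E0 g ≤ 3 := by decide

theorem E1_diff : ∀ g h : Fin 4, g < h → 1 ≤ E1 h - E1 g ∧ E1 h - E1 g ≤ 4 := by decide

theorem small_dvd {p : ℕ} (hp : p.Prime) (x k : ℤ) (hk : ¬ (p : ℤ) ∣ k) (h : (p : ℤ) ∣ x * k)
    (hx0 : x ≠ 0) (hx : |x| < p) : False := by
  have hpp := Nat.prime_iff_prime_int.1 hp
  rcases hpp.dvd_or_dvd h with h1 | h1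
  · have h2 := Int.le_of_dvd (abs_pos.2 hx0) ((dvd_abs _ _).2 h1)
    omega
  · exact hk h1

theorem adE_mul {a d : ℤ} (h : Ad a d) (e : Fin 4 → ℕ) (r : ℕ) (k : ℕ)
    (he : ∀ p : ℕ, p.Prime → 3 ≤ p → (p : ℤ) ∣ d - 1 → ¬ (p : ℤ) ∣ a → ¬ (p : ℤ) ∣ k →
      ∀ g, ((e g : ℤ) - r) ≠ 0 ∧ |(e g : ℤ) - r| < p) : AdE (fun g => e g * k) a d := by
  intro p hp
  have hpp := Nat.prime_iff_prime_int.1 hp
  refine iter_admissible h.1 h.2 _ hp fun hp3 hpd hpa => ?_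
  by_cases hk : (p : ℤ) ∣ k
  · refine iter_miss _ hp hpd hpa 1 fun g hg => ?_
    have h1 : ((e g * k : ℕ) : ℤ) ≡ ((1 : ℕ) : ℤ) [ZMOD p] := (Int.natCast_modEq_iff).2 hg
    have h2 := Int.modEq_iff_dvd.1 h1
    have h3 : (p : ℤ) ∣ ((e g * k : ℕ) : ℤ) := by push_cast; exact Dvd.dvd.mul_left hk _
    have h4 := dvd_add h2 h3
    rw [sub_add_cancel] at h4
    exact hpp.not_isUnit (isUnit_of_dvd_one (by exact_mod_cast h4))
  · refine iter_miss _ hp hpd hpa (r * k) fun g hg => ?_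
    have h1 : ((e g * k : ℕ) : ℤ) ≡ ((r * k : ℕ) : ℤ) [ZMOD p] := (Int.natCast_modEq_iff).2 hg
    have h2 := Int.modEq_iff_dvd.1 h1.symm
    push_cast at h2
    have h3 : (e g : ℤ) * k - r * k = ((e g : ℤ) - r) * k := by ring
    rw [h3] at h2
    obtain ⟨h4, h5⟩ := he p hp hp3 hpd hpa hk g
    exact small_dvd hp _ _ hk h2 h4 h5

theorem adE0_mul {a d : ℤ} (h : Ad a d) (k : ℕ) (h3 : ¬ (3 ∣ d - 1 ∧ ¬ 3 ∣ a * k)) :
    AdE (fun g => E0 g * k) a d := by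
  refine adE_mul h E0 4 k fun p hp hp3 hpd hpa hpk g => ?_
  have hp5 : 5 ≤ p := by
    by_contra hlt
    have h4 : p = 3 ∨ p = 4 := by omega
    rcases h4 with rfl | rfl
    · refine h3 ⟨by exact_mod_cast hpd, fun h5 => ?_⟩
      rcases Int.prime_three.dvd_or_dvd h5 with h6 | h6
      · exact hpa (by exact_mod_cast h6)
      · exact hpk (by exact_mod_cast h6)
    · exact absurd hp (by norm_num)
  have h4 : ((E0 g : ℕ) : ℤ) ≤ 3 := by
    have : E0 g ≤ 3 := by revert g; decide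
    exact_mod_cast this
  have h5 : (0 : ℤ) ≤ ((E0 g : ℕ) : ℤ) := Nat.cast_nonneg _
  refine ⟨by push_cast; omega, ?_⟩
  rw [abs_lt]
  push_cast
  constructor <;> omega

theorem adE1_mul {a d : ℤ} (h : Ad a d) (k : ℕ) : AdE (fun g => E1 g * k) a d := by
  refine adE_mul h E1 2 k fun p hp hp3 hpd hpa hpk g => ?_
  have h4 : E1 g = 0 ∨ E1 g = 1 ∨ E1 g = 3 ∨ E1 g = 4 := by revert g; decide
  rcases h4 with h4 | h4 | h4 | h4 <;> rw [h4] <;> refine ⟨by norm_num, ?_⟩ <;> rw [abs_lt] <;>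
    push_cast <;> constructor <;> omega

end Pool.Agent.Y863.AA
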