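import Mathlib
import Pool.Agent.Y863.AA.Inf

/-!
# One of the first three iterates, for almost all `a`; the multiples of every exponent
-/

set_option autoImplicit false
set_option maxHeartbeats 400000

namespace Pool.Agent.Y863.AA

open Finset Filter Topology Pool.Agent.W25.IT Pool.Agent.H732R3.BigQ

open Classical in
/-- the number of the iterates -/
noncomputable def Rn (a d : ℤ) : ℕ := if 3 ∣ d - 1 ∧ ¬ 3 ∣ a then 4 else 3

theorem two_of_card {T : ℕ} (S : Finset (Fin T)) (h : 1 + 1 ≤ S.card) :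
    ∃ g ∈ S, ∃ k ∈ S, g < k := by
  obtain ⟨g, hg, k, hk, hne⟩ := Finset.one_lt_card.1 (by omega : 1 < S.card)
  rcases lt_or_gt_of_ne hne with h1 | h1
  · exact ⟨g, hg, k, hk, h1⟩
  · exact ⟨k, hk, g, hg, h1⟩

theorem cnt_mono (a d : ℤ) (j : ℕ) {y y' x : ℝ} (h : y' ≤ y) : cnt a d j y x ≤ cnt a d j y' x :=
  Set.ncard_le_ncard (fun _ hq => ⟨hq.1, h.trans hq.2.1, hq.2.2⟩) (PS_finite _ _ _ _ _)

theorem four_lt {c : ℝ} (hc : 0 < c) : (4 - c) * ((1 : ℕ) : ℝ) < ((4 : ℕ) : ℝ) := by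
  push_cast; linarith

theorem mul_div_cast {C D : ℕ} (hD : 1 ≤ D) (X : ℕ) :
    (X : ℝ) / ((C * D : ℕ) : ℝ) ≤ (X : ℝ) / (C : ℝ) := by
  rcases Nat.eq_zero_or_pos C with h | h
  · subst h; simp
  · have h1 : (0 : ℝ) < C := by exact_mod_cast h
    apply div_le_div_of_nonneg_left (Nat.cast_nonneg _) h1
    exact_mod_cast Nat.le_mul_of_pos_right _ hD

open Classical in
theorem noclq_of {T : ℕ} (e : Fin T → ℕ) (a d : ℤ) (R : ℕ) (Y y y' x : ℝ) (hy : y ≤ y')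
    (he : ∀ g h : Fin T, g < h → 1 ≤ e h - e g ∧ e h - e g ≤ R)
    (h : ∀ j : ℕ, 1 ≤ j → j ≤ R → (cnt a d j y x : ℝ) < Y) : NoClq 1 e a d Y y' x := by
  rintro ⟨S, hS, hcl⟩
  obtain ⟨g, hg, k, hk, hgk⟩ := two_of_card S hS
  have h1 := hcl g hg k hk hgk
  obtain ⟨h2, h3⟩ := he g k hgk
  have h4 := h _ h2 h3
  have h5 : (cnt a d (e k - e g) y' x : ℝ) ≤ (cnt a d (e k - e g) y x : ℝ) := by
    exact_mod_cast cnt_mono a d _ hy
  linarith

open Classical in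
theorem noclq_of_mul {T : ℕ} (e : Fin T → ℕ) (a d : ℤ) (R k : ℕ) (Y y y' x : ℝ) (hy : y ≤ y')
    (he : ∀ g h : Fin T, g < h → 1 ≤ e h - e g ∧ e h - e g ≤ R)
    (h : ∀ j : ℕ, 1 ≤ j → j ≤ R → (cnt a d (j * k) y x : ℝ) < Y) :
    NoClq 1 (fun g => e g * k) a d Y y' x := by
  rintro ⟨S, hS, hcl⟩
  obtain ⟨g, hg, s, hs, hgs⟩ := two_of_card S hS
  have h1 := hcl g hg s hs hgs
  obtain ⟨h2, h3⟩ := he g s hgs
  have h4 := h _ h2 h3
  rw [Nat.sub_mul] at h4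
  have h5 : (cnt a d (e s * k - e g * k) y' x : ℝ) ≤ (cnt a d (e s * k - e g * k) y x : ℝ) := by
    exact_mod_cast cnt_mono a d _ hy
  linarith

open Classical in
theorem nogood_of {T : ℕ} (e : Fin T → ℕ) (a d : ℤ) (R : ℕ)
    (he : ∀ g h : Fin T, g < h → 1 ≤ e h - e g ∧ e h - e g ≤ R)
    (h : ∀ j : ℕ, 1 ≤ j → j ≤ R → ¬ GoodPair (itc a d j) (d ^ j)) : NoGood 1 e a d := by
  rintro ⟨S, hS, hcl⟩
  obtain ⟨g, hg, k, hk, hgk⟩ := two_of_card S hS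
  obtain ⟨h2, h3⟩ := he g k hgk
  exact h _ h2 h3 (hcl g hg k hk hgk)

open Classical in
theorem nogood_of_mul {T : ℕ} (e : Fin T → ℕ) (a d : ℤ) (R k : ℕ)
    (he : ∀ g h : Fin T, g < h → 1 ≤ e h - e g ∧ e h - e g ≤ R)
    (h : ∀ j : ℕ, 1 ≤ j → j ≤ R → ¬ GoodPair (itc a d (j * k)) (d ^ (j * k))) :
    NoGood 1 (fun g => e g * k) a d := by
  rintro ⟨S, hS, hcl⟩
  obtain ⟨g, hg, s, hs, hgs⟩ := two_of_card S hS
  obtain ⟨h2, h3⟩ := he g s hgs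
  have h1 := hcl g hg s hs hgs
  rw [← Nat.sub_mul] at h1
  exact h _ h2 h3 h1

theorem card_two {ι : Type*} (s t u : Finset ι) (B C : ℝ) (h : ∀ x ∈ s, x ∈ t ∨ x ∈ u)
    (h1 : (t.card : ℝ) ≤ B) (h2 : (u.card : ℝ) ≤ C) : (s.card : ℝ) ≤ B + C := by
  classical
  have h3 : s.card ≤ t.card + u.card :=
    (card_le_card (t := t ∪ u) (fun x hx => mem_union.2 (h x hx))).trans (card_union_le _ _)
  have h4 : (s.card : ℝ) ≤ t.card + u.card := by exact_mod_cast h3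
  linarith

theorem adE_one {ι : Type*} {e : ι → ℕ} {a d : ℤ} (h : AdE (fun g => e g * 1) a d) : AdE e a d := by
  simpa only [mul_one] using h

open Classical in
/-- almost all `a`, at one scale and for infinitely many primes -/
theorem partA : ∀ ε : ℝ, 0 < ε → ∃ L : ℕ, ∀ d : ℕ, 1 ≤ d →
    (∃ C : ℕ, 1 ≤ C ∧ ∀ η : ℝ, 0 < η → η ≤ 1 → ∀ᶠ X : ℕ in atTop, ∀ (u : ℤ) (H : ℕ),
      L * d ^ 25 ≤ H → (C : ℤ) * (|u| + H) ≤ X →
      (((Ioc u (u + H)).filter (fun a : ℤ => Ad a d ∧ a ≠ 0 ∧ ∀ j : ℕ, 1 ≤ j → j ≤ Rn a d →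
        (cnt a d j (X / C) X : ℝ) < (X : ℝ) ^ (1 - η))).card : ℝ) ≤
      ε * (((Ioc u (u + H)).filter (fun a : ℤ => Ad a d)).card : ℝ)) ∧
    ∀ (u : ℤ) (H : ℕ), L * d ^ 25 ≤ H →
      (((Ioc u (u + H)).filter (fun a : ℤ => Ad a d ∧ a ≠ 0 ∧ ∀ j : ℕ, 1 ≤ j → j ≤ Rn a d →
        ¬ GoodPair (itc a d j) ((d : ℤ) ^ j))).card : ℝ) ≤
      ε * (((Ioc u (u + H)).filter (fun a : ℤ => Ad a d)).card : ℝ) := by
  obtain ⟨c, hc, -, hcore⟩ := core
  intro ε hε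
  obtain ⟨L0, h0⟩ := hcore 4 1 (four_lt hc) 4 E0 E0_mono E0_le (ε / 2) (by positivity)
  obtain ⟨L1, h1⟩ := hcore 4 1 (four_lt hc) 4 E1 E1_mono E1_le (ε / 2) (by positivity)
  refine ⟨L0 + L1, fun d hd => ?_⟩
  obtain ⟨C0, hC0, h0⟩ := h0 d hd
  obtain ⟨C1, hC1, h1⟩ := h1 d hd
  have e25 : (4 + 1) ^ 2 = 25 := by norm_num
  rw [e25] at h0 h1
  have hLH0 : ∀ H : ℕ, (L0 + L1) * d ^ 25 ≤ H → L0 * d ^ 25 ≤ H := fun H h =>
    le_trans (Nat.mul_le_mul_right _ (by omega)) h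
  have hLH1 : ∀ H : ℕ, (L0 + L1) * d ^ 25 ≤ H → L1 * d ^ 25 ≤ H := fun H h =>
    le_trans (Nat.mul_le_mul_right _ (by omega)) h
  refine ⟨⟨C0 * C1, Nat.mul_pos hC0 hC1, fun η hη hη1 => ?_⟩, fun u H hH => ?_⟩
  · filter_upwards [h0 η hη hη1, h1 η hη hη1] with X hX0 hX1 u H hH hCX
    have hnn : (0 : ℤ) ≤ |u| + H := by positivity
    have hX0 := hX0 u H (hLH0 H hH) (by
      refine le_trans (mul_le_mul_of_nonneg_right ?_ hnn) hCX
      exact_mod_cast Nat.le_mul_of_pos_right _ hC1)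
    have hX1 := hX1 u H (hLH1 H hH) (by
      refine le_trans (mul_le_mul_of_nonneg_right ?_ hnn) hCX
      exact_mod_cast Nat.le_mul_of_pos_left _ hC0)
    have e1 : ∀ B : ℝ, ε * B = ε / 2 * B + ε / 2 * B := fun B => by ring
    rw [e1]
    refine card_two _ _ _ _ _ ?_ hX0 hX1
    intro a ha
    obtain ⟨haI, hAd, ha0, hR⟩ := mem_filter.1 ha
    simp only [mem_filter]
    by_cases h3 : (3 : ℤ) ∣ (d : ℤ) - 1 ∧ ¬ (3 : ℤ) ∣ a
    · right
      rw [Rn, if_pos h3] at hR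
      refine ⟨haI, hAd, ha0, adE_one (adE1_mul hAd 1), noclq_of E1 a d 4 _ _ _ _ ?_ E1_diff hR⟩
      rw [Nat.mul_comm]
      exact mul_div_cast hC0 X
    · left
      rw [Rn, if_neg h3] at hR
      refine ⟨haI, hAd, ha0, adE_one (adE0_mul hAd 1 ?_), noclq_of E0 a d 3 _ _ _ _ ?_ E0_diff hR⟩
      · simpa using h3
      · exact mul_div_cast hC1 X
  · have p0 := pass (Ioc u (u + H)) 4 1 (fun a : ℤ => a) (fun _ => E0) d hd
      (fun a => Ad a d ∧ a ≠ 0 ∧ AdE E0 a d) C0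
      (ε / 2 * (((Ioc u (u + H)).filter (fun a : ℤ => Ad a d)).card : ℝ)) (by
        intro η hη hη1
        filter_upwards [h0 η hη hη1, eventually_ge_atTop (C0 * (|u| + H)).toNat] with X hX hX2
        refine le_trans (le_of_eq ?_) (hX u H (hLH0 H hH) (by omega))
        congr 2
        ext a
        simp only [mem_filter, and_assoc])
    have p1 := pass (Ioc u (u + H)) 4 1 (fun a : ℤ => a) (fun _ => E1) d hd
      (fun a => Ad a d ∧ a ≠ 0 ∧ AdE E1 a d) C1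
      (ε / 2 * (((Ioc u (u + H)).filter (fun a : ℤ => Ad a d)).card : ℝ)) (by
        intro η hη hη1
        filter_upwards [h1 η hη hη1, eventually_ge_atTop (C1 * (|u| + H)).toNat] with X hX hX2
        refine le_trans (le_of_eq ?_) (hX u H (hLH1 H hH) (by omega))
        congr 2
        ext a
        simp only [mem_filter, and_assoc])
    have e1 : ∀ B : ℝ, ε * B = ε / 2 * B + ε / 2 * B := fun B => by ring
    rw [e1]
    refine card_two _ _ _ _ _ ?_ p0 p1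
    intro a ha
    obtain ⟨haI, hAd, ha0, hR⟩ := mem_filter.1 ha
    simp only [mem_filter]
    by_cases h3 : (3 : ℤ) ∣ (d : ℤ) - 1 ∧ ¬ (3 : ℤ) ∣ a
    · right
      rw [Rn, if_pos h3] at hR
      exact ⟨haI, ⟨hAd, ha0, adE_one (adE1_mul hAd 1)⟩, nogood_of E1 a d 4 E1_diff hR⟩
    · left
      rw [Rn, if_neg h3] at hR
      exact ⟨haI, ⟨hAd, ha0, adE_one (adE0_mul hAd 1 (by simpa using h3))⟩,
        nogood_of E0 a d 3 E0_diff hR⟩

end Pool.Agent.Y863.AA
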