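import Mathlib
import Pool.Agent.Y863.AA.Fin

/-!
# Almost all multiples of the first three exponents
-/

set_option autoImplicit false
set_option maxHeartbeats 400000

namespace Pool.Agent.Y863.AA

open Finset Filter Topology Pool.Agent.W25.IT Pool.Agent.H732R3.BigQ

theorem card_map2 (s : Finset ℕ) (t u : Finset ℤ) (B C : ℝ)
    (h : ∀ k ∈ s, (k : ℤ) ∈ t ∨ (k : ℤ) ∈ u)
    (h1 : (t.card : ℝ) ≤ B) (h2 : (u.card : ℝ) ≤ C) : (s.card : ℝ) ≤ B + C := by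
  classical
  have h3 : (s.image (fun k : ℕ => (k : ℤ))).card = s.card :=
    card_image_of_injective _ Nat.cast_injective
  rw [← h3]
  refine card_two _ t u _ _ ?_ h1 h2
  intro x hx
  obtain ⟨k, hk, rfl⟩ := mem_image.1 hx
  exact h k hk

open Classical in
/-- every `a`, almost all exponents -/
theorem partB : ∀ ε : ℝ, 0 < ε → ∃ L : ℕ,
    (∀ d : ℕ, 1 ≤ d → ∀ u H : ℕ, L ≤ H → ∃ C : ℕ, 1 ≤ C ∧ ∀ η : ℝ, 0 < η → η ≤ 1 →
      ∀ᶠ X : ℕ in atTop, ∀ a : ℤ, a ≠ 0 → Ad a d → (C : ℤ) * |a| ≤ X →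
      (((Ioc u (u + H)).filter (fun k : ℕ => ∀ j : ℕ, 1 ≤ j → j ≤ Rn (a * k) d →
        (cnt a d (j * k) (X / C) X : ℝ) < (X : ℝ) ^ (1 - η))).card : ℝ) ≤ ε * H) ∧
    ∀ (a : ℤ) (d : ℕ), 1 ≤ d → a ≠ 0 → Ad a d → ∀ u H : ℕ, L ≤ H →
      (((Ioc u (u + H)).filter (fun k : ℕ => ∀ j : ℕ, 1 ≤ j → j ≤ Rn (a * k) d →
        ¬ GoodPair (itc a d (j * k)) ((d : ℤ) ^ (j * k)))).card : ℝ) ≤ ε * H := by
  obtain ⟨c, hc, -, hcore⟩ := coreB
  intro ε hε
  obtain ⟨L0, h0⟩ := hcore 4 1 (four_lt hc) 4 E0 E0_mono E0_le (ε / 2) (by positivity)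
  obtain ⟨L1, h1⟩ := hcore 4 1 (four_lt hc) 4 E1 E1_mono E1_le (ε / 2) (by positivity)
  have e1 : ∀ B : ℝ, ε * B = ε / 2 * B + ε / 2 * B := fun B => by ring
  have hI : ∀ u H k : ℕ, k ∈ Ioc u (u + H) → (k : ℤ) ∈ Ioc (u : ℤ) (u + H) := by
    intro u H k hk
    have hk := mem_Ioc.1 hk
    rw [mem_Ioc]
    constructor <;> omega
  refine ⟨L0 + L1, fun d hd u H hH => ?_, fun a d hd ha hAd u H hH => ?_⟩
  · obtain ⟨C0, hC0, h0⟩ := h0 d hd u H (by omega)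
    obtain ⟨C1, hC1, h1⟩ := h1 d hd u H (by omega)
    refine ⟨C0 * C1, Nat.mul_pos hC0 hC1, fun η hη hη1 => ?_⟩
    filter_upwards [h0 η hη hη1, h1 η hη hη1] with X hX0 hX1 a ha hAd hCX
    have hX0 := hX0 a ha hAd (by
      refine le_trans (mul_le_mul_of_nonneg_right ?_ (abs_nonneg _)) hCX
      exact_mod_cast Nat.le_mul_of_pos_right _ hC1)
    have hX1 := hX1 a ha hAd (by
      refine le_trans (mul_le_mul_of_nonneg_right ?_ (abs_nonneg _)) hCX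
      exact_mod_cast Nat.le_mul_of_pos_left _ hC0)
    rw [e1]
    refine card_map2 _ _ _ _ _ ?_ hX0 hX1
    intro k hk
    obtain ⟨hk, hR⟩ := mem_filter.1 hk
    simp only [mem_filter, Int.toNat_natCast]
    by_cases h3 : (3 : ℤ) ∣ (d : ℤ) - 1 ∧ ¬ (3 : ℤ) ∣ a * k
    · right
      rw [Rn, if_pos h3] at hR
      refine ⟨hI u H k hk, adE1_mul hAd k, noclq_of_mul E1 a d 4 k _ _ _ _ ?_ E1_diff hR⟩
      rw [Nat.mul_comm]
      exact mul_div_cast hC0 X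
    · left
      rw [Rn, if_neg h3] at hR
      exact ⟨hI u H k hk, adE0_mul hAd k h3,
        noclq_of_mul E0 a d 3 k _ _ _ _ (mul_div_cast hC1 X) E0_diff hR⟩
  · obtain ⟨C0, hC0, h0⟩ := h0 d hd u H (by omega)
    obtain ⟨C1, hC1, h1⟩ := h1 d hd u H (by omega)
    have p0 := pass (Ioc (u : ℤ) (u + H)) 4 1 (fun _ : ℤ => a) (fun k g => E0 g * k.toNat) d hd
      (fun k => AdE (fun g => E0 g * k.toNat) a d) C0 (ε / 2 * H) (by
        intro η hη hη1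
        filter_upwards [h0 η hη hη1, eventually_ge_atTop (C0 * |a|).toNat] with X hX hX2
        exact hX a ha hAd (by omega))
    have p1 := pass (Ioc (u : ℤ) (u + H)) 4 1 (fun _ : ℤ => a) (fun k g => E1 g * k.toNat) d hd
      (fun k => AdE (fun g => E1 g * k.toNat) a d) C1 (ε / 2 * H) (by
        intro η hη hη1
        filter_upwards [h1 η hη hη1, eventually_ge_atTop (C1 * |a|).toNat] with X hX hX2
        exact hX a ha hAd (by omega))
    rw [e1]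
    refine card_map2 _ _ _ _ _ ?_ p0 p1
    intro k hk
    obtain ⟨hk, hR⟩ := mem_filter.1 hk
    simp only [mem_filter, Int.toNat_natCast]
    by_cases h3 : (3 : ℤ) ∣ (d : ℤ) - 1 ∧ ¬ (3 : ℤ) ∣ a * k
    · right
      rw [Rn, if_pos h3] at hR
      exact ⟨hI u H k hk, adE1_mul hAd k, nogood_of_mul E1 a d 4 k E1_diff hR⟩
    · left
      rw [Rn, if_neg h3] at hR
      exact ⟨hI u H k hk, adE0_mul hAd k h3, nogood_of_mul E0 a d 3 k E0_diff hR⟩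

end Pool.Agent.Y863.AA
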