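import Mathlib
import Pool.Agent.Y863.AA.FinB

/-!
# Almost all multiples of a set of exponents, infinitely many primes
-/

set_option autoImplicit false
set_option maxHeartbeats 400000

namespace Pool.Agent.Y863.AA

open Finset Filter Topology Pool.Agent.W25.IT Pool.Agent.H732R3.BigQ

open Classical in
theorem mulAll : ∃ c : ℝ, 0 < c ∧ c < 1 ∧ ∀ T M : ℕ, (4 - c) * M < T → ∀ e : Fin T → ℕ,
    StrictMono e → ∀ ε : ℝ, 0 < ε → ∃ L : ℕ, ∀ (a : ℤ) (d : ℕ), 1 ≤ d → a ≠ 0 → Ad a d →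
    ∀ u H : ℕ, L ≤ H →
      (((Ioc (u : ℤ) (u + H)).filter (fun k : ℤ => AdE (fun g => e g * k.toNat) a d ∧
        NoGood M (fun g => e g * k.toNat) a d)).card : ℝ) ≤ ε * H := by
  obtain ⟨c, hc, hc1, hcore⟩ := coreB
  refine ⟨c, hc, hc1, fun T M hTM e he ε hε => ?_⟩
  obtain ⟨L, hL⟩ := hcore T M hTM (univ.sup e) e he (fun g => le_sup (mem_univ g)) ε hε
  refine ⟨L, fun a d hd ha hAd u H hH => ?_⟩
  obtain ⟨C, hC, h⟩ := hL d hd u H hH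
  refine pass (Ioc (u : ℤ) (u + H)) T M (fun _ : ℤ => a) (fun k g => e g * k.toNat) d hd
    (fun k => AdE (fun g => e g * k.toNat) a d) C (ε * H) ?_
  intro η hη hη1
  filter_upwards [h η hη hη1, eventually_ge_atTop (C * |a|).toNat] with X hX hX2
  exact hX a ha hAd (by omega)

/-- no local condition for the slope `2` -/
theorem adE_two {ι : Type*} (e : ι → ℕ) (a : ℤ) (h : Ad a 2) : AdE e a 2 := by
  intro p hp
  refine iter_admissible h.1 h.2 e hp fun hp3 hpd _ => ?_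
  have h2 : (p : ℤ) ∣ ((1 : ℕ) : ℤ) := by norm_num at hpd ⊢; exact hpd
  have h4 := Nat.dvd_one.1 (Int.natCast_dvd_natCast.1 h2)
  omega

open Classical in
/-- the slope `2`: any set of exponents -/
theorem mulTwo : ∃ c : ℝ, 0 < c ∧ c < 1 ∧ ∀ (T M : ℕ), (4 - c) * M < T → ∀ E : Finset ℕ,
    E.card = T → ∀ ε : ℝ, 0 < ε → ∃ L : ℕ, ∀ a : ℤ, a ≠ 0 → Ad a 2 → ∀ u H : ℕ, L ≤ H →
      (((Ioc u (u + H)).filter (fun k : ℕ => ¬ ∃ F : Finset ℕ, F ⊆ E ∧ M + 1 ≤ F.card ∧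
        ∀ e ∈ F, ∀ e' ∈ F, e < e' →
          GoodPair (itc a 2 ((e' - e) * k)) (2 ^ ((e' - e) * k)))).card : ℝ) ≤ ε * H := by
  obtain ⟨c, hc, hc1, h⟩ := mulAll
  refine ⟨c, hc, hc1, fun T M hTM E hE ε hε => ?_⟩
  obtain ⟨L, hL⟩ := h T M hTM (E.orderEmbOfFin hE) (E.orderEmbOfFin hE).strictMono ε hε
  refine ⟨L, fun a ha hAd u H hH => ?_⟩
  refine le_trans ?_ (hL a 2 (by norm_num) ha hAd u H hH)
  rw [Nat.cast_le]
  refine card_le_card_of_injOn (fun k : ℕ => (k : ℤ)) ?_ (fun _ _ _ _ h => Nat.cast_injective h)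
  intro k hk
  obtain ⟨h1, h2⟩ := mem_filter.1 (mem_coe.1 hk)
  have h1' := mem_Ioc.1 h1
  rw [mem_coe, mem_filter]
  refine ⟨?_, adE_two _ _ hAd, ?_⟩
  · rw [mem_Ioc]
    show (u : ℤ) < (k : ℤ) ∧ (k : ℤ) ≤ u + H
    constructor <;> omega
  rintro ⟨S, hS, hcl⟩
  apply h2
  refine ⟨S.map (E.orderEmbOfFin hE).toEmbedding, ?_, ?_, ?_⟩
  · intro x hx
    obtain ⟨g, _, rfl⟩ := mem_map.1 hx
    exact E.orderEmbOfFin_mem hE g
  · rw [card_map]; exact hS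
  · intro x hx y hy hxy
    obtain ⟨g, hg, rfl⟩ := mem_map.1 hx
    obtain ⟨g', hg', rfl⟩ := mem_map.1 hy
    have hgg : g < g' := (E.orderEmbOfFin hE).lt_iff_lt.1 hxy
    have h3 := hcl g hg g' hg' hgg
    have h4 : ((k : ℤ)).toNat = k := Int.toNat_natCast k
    simp only [h4] at h3
    rw [← Nat.sub_mul] at h3
    exact_mod_cast h3

open Classical in
/-- the slope `2` at every scale: three iterates -/
theorem scaleTwo : ∀ ε : ℝ, 0 < ε → ∃ L : ℕ, ∀ u H : ℕ, L ≤ H → ∃ C : ℕ, 1 ≤ C ∧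
    ∀ η : ℝ, 0 < η → η ≤ 1 → ∀ᶠ X : ℕ in atTop, ∀ a : ℤ, a ≠ 0 → Ad a 2 → (C : ℤ) * |a| ≤ X →
      (((Ioc u (u + H)).filter (fun k : ℕ => ∀ j : ℕ, 1 ≤ j → j ≤ 3 →
        (cnt a 2 (j * k) (X / C) X : ℝ) < (X : ℝ) ^ (1 - η))).card : ℝ) ≤ ε * H := by
  intro ε hε
  obtain ⟨L, hL, -⟩ := partB ε hε
  refine ⟨L, fun u H hH => ?_⟩
  obtain ⟨C, hC, h⟩ := hL 2 (by norm_num) u H hH
  refine ⟨C, hC, fun η hη hη1 => ?_⟩
  filter_upwards [h η hη hη1] with X hX a ha hAd hCX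
  have hR : ∀ k : ℕ, Rn (a * k) ((2 : ℕ) : ℤ) = 3 := by
    intro k
    rw [Rn, if_neg]
    rintro ⟨h1, -⟩
    norm_num at h1
  have h2 := hX a ha hAd hCX
  simp only [hR] at h2
  exact h2

end Pool.Agent.Y863.AA
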